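import Pool.Agent.TH602.Turan.Drop

/-!
# Relations between distributive lattices closed under meets and joins: a linear bound
-/

set_option autoImplicit false

namespace Pool.Agent.Q174.LR

open Finset SimpleGraph Pool.Agent.TH602.Turan

section One

variable {X : Type*} [DistribLattice X] [DecidableEq X] [DecidableLE X]

/-- In a distributive lattice the down-set of a join is at most the product of the down-sets. -/
theorem card_down_sup_le (N : Finset X) (hN : ∀ a ∈ N, ∀ b ∈ N, a ⊓ b ∈ N) (x x' : X) (hx : x ∈ N)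
    (hx' : x' ∈ N) :
    #(N.filter fun z => z ≤ x ⊔ x') ≤ #(N.filter fun z => z ≤ x) * #(N.filter fun z => z ≤ x') := by
  rw [← card_product]
  refine card_le_card_of_injOn (fun z => (z ⊓ x, z ⊓ x')) ?_ ?_
  · intro z hz
    have hz' := (mem_filter.1 (mem_coe.1 hz))
    rw [mem_coe, mem_product]
    exact ⟨mem_filter.2 ⟨hN _ hz'.1 _ hx, inf_le_right⟩,
      mem_filter.2 ⟨hN _ hz'.1 _ hx', inf_le_right⟩⟩
  · intro z hz w hw h
    have hz' := (mem_filter.1 (mem_coe.1 hz))
    have hw' := (mem_filter.1 (mem_coe.1 hw))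
    simp only [Prod.mk.injEq] at h
    calc z = z ⊓ (x ⊔ x') := (inf_eq_left.2 hz'.2).symm
      _ = (z ⊓ x) ⊔ (z ⊓ x') := inf_sup_left _ _ _
      _ = (w ⊓ x) ⊔ (w ⊓ x') := by rw [h.1, h.2]
      _ = w ⊓ (x ⊔ x') := (inf_sup_left _ _ _).symm
      _ = w := inf_eq_left.2 hw'.2

/-- There are few elements with small down-sets. -/
theorem few_low (N : Finset X) (hN : ∀ a ∈ N, ∀ b ∈ N, a ⊓ b ∈ N)
    (hN' : ∀ a ∈ N, ∀ b ∈ N, a ⊔ b ∈ N) (r : ℕ) :
    #(N.filter fun x => #(N.filter fun z => z ≤ x) ≤ r) ^ 2 ≤ r ^ 4 * #N := by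
  set S := N.filter fun x => #(N.filter fun z => z ≤ x) ≤ r with hS
  have hmem : ∀ x, x ∈ S ↔ x ∈ N ∧ #(N.filter fun z => z ≤ x) ≤ r := by
    intro x; rw [hS, mem_filter]
  rw [sq, ← card_product]
  refine card_le_mul_card_image_of_maps_to (f := fun e : X × X => e.1 ⊔ e.2) ?_ (r ^ 4) ?_
  · rintro ⟨a, b⟩ h
    rw [mem_product] at h
    exact hN' _ ((hmem _).1 h.1).1 _ ((hmem _).1 h.2).1
  · intro w hw
    rcases (filter (fun e : X × X => e.1 ⊔ e.2 = w) (S ×ˢ S)).eq_empty_or_nonempty with h | ⟨⟨a, b⟩, h⟩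
    · rw [h]; simp
    · rw [mem_filter, mem_product] at h
      obtain ⟨⟨ha, hb⟩, hab⟩ := h
      simp only at ha hb hab
      have h1 : #(N.filter fun z => z ≤ w) ≤ r ^ 2 := by
        rw [← hab, sq]
        exact (card_down_sup_le N hN a b ((hmem _).1 ha).1 ((hmem _).1 hb).1).trans
          (Nat.mul_le_mul ((hmem _).1 ha).2 ((hmem _).1 hb).2)
      calc #(filter (fun e : X × X => e.1 ⊔ e.2 = w) (S ×ˢ S))
          ≤ #((N.filter fun z => z ≤ w) ×ˢ (N.filter fun z => z ≤ w)) := by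
            refine card_le_card ?_
            rintro ⟨c, d⟩ h
            rw [mem_filter, mem_product] at h
            obtain ⟨⟨hc, hd⟩, hcd⟩ := h
            simp only at hc hd hcd
            rw [mem_product]
            exact ⟨mem_filter.2 ⟨((hmem _).1 hc).1, hcd ▸ le_sup_left⟩,
              mem_filter.2 ⟨((hmem _).1 hd).1, hcd ▸ le_sup_right⟩⟩
        _ = #(N.filter fun z => z ≤ w) * #(N.filter fun z => z ≤ w) := card_product _ _
        _ ≤ r ^ 2 * r ^ 2 := Nat.mul_le_mul h1 h1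
        _ = r ^ 4 := by ring

/-- An element with a small down-set and a small up-set exists only in a small lattice. -/
theorem card_le_of_low_high (N : Finset X) (hN : ∀ a ∈ N, ∀ b ∈ N, a ⊓ b ∈ N)
    (hN' : ∀ a ∈ N, ∀ b ∈ N, a ⊔ b ∈ N) (r : ℕ) (x : X) (hx : x ∈ N)
    (h1 : #(N.filter fun z => z ≤ x) ≤ r) (h2 : #(N.filter fun z => x ≤ z) ≤ r) :
    #N ≤ r ^ 2 := by
  calc #N ≤ #((N.filter fun z => z ≤ x) ×ˢ (N.filter fun z => x ≤ z)) := by
        refine card_le_card_of_injOn (fun z => (z ⊓ x, z ⊔ x)) ?_ ?_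
        · intro z hz
          rw [mem_coe] at hz
          rw [mem_coe, mem_product]
          exact ⟨mem_filter.2 ⟨hN _ hz _ hx, inf_le_right⟩,
            mem_filter.2 ⟨hN' _ hz _ hx, le_sup_right⟩⟩
        · intro z hz w hw h
          simp only [Prod.mk.injEq] at h
          exact eq_of_inf_eq_sup_eq h.1 h.2
    _ = _ := card_product _ _
    _ ≤ r * r := Nat.mul_le_mul h1 h2
    _ = r ^ 2 := (sq r).symm

theorem quarter {a n r : ℕ} (h : a ^ 2 ≤ r ^ 4 * n) (hn : 16 * r ^ 4 ≤ n) : 4 * a ≤ n := by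
  by_contra hcon
  push Not at hcon
  have h1 : n * n < (4 * a) * (4 * a) := Nat.mul_lt_mul'' hcon hcon
  have h2 : 16 * (a ^ 2) ≤ 16 * r ^ 4 * n := by
    calc 16 * a ^ 2 ≤ 16 * (r ^ 4 * n) := Nat.mul_le_mul_left _ h
      _ = 16 * r ^ 4 * n := by ring
  have h3 : 16 * r ^ 4 * n ≤ n * n := Nat.mul_le_mul_right _ hn
  nlinarith

/-- In a large distributive lattice at least half of the elements have large down-sets and large
up-sets. -/
theorem half (N : Finset X) (hN : ∀ a ∈ N, ∀ b ∈ N, a ⊓ b ∈ N)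
    (hN' : ∀ a ∈ N, ∀ b ∈ N, a ⊔ b ∈ N) (r : ℕ) (hr : 16 * r ^ 4 ≤ #N) :
    #N ≤ 2 * #(N.filter fun x => r < #(N.filter fun z => z ≤ x) ∧ r < #(N.filter fun z => x ≤ z)) := by
  have h1 := quarter (few_low N hN hN' r) hr
  have h2 : 4 * #(N.filter fun x => #(N.filter fun z => x ≤ z) ≤ r) ≤ #N :=
    quarter (few_low (X := Xᵒᵈ) N hN' hN r) hr
  have h3 : N ⊆ (N.filter fun x => r < #(N.filter fun z => z ≤ x) ∧ r < #(N.filter fun z => x ≤ z)) ∪
      ((N.filter fun x => #(N.filter fun z => z ≤ x) ≤ r) ∪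
        (N.filter fun x => #(N.filter fun z => x ≤ z) ≤ r)) := by
    intro x hx
    simp only [mem_union, mem_filter, hx, true_and]
    omega
  have h4 := (card_le_card h3).trans
    ((card_union_le _ _).trans (Nat.add_le_add_left (card_union_le _ _) _))
  omega

end One

/-- The linear bound for distributive lattices. -/
theorem linear {X Y : Type*} [Fintype X] [Fintype Y] [DistribLattice X] [DistribLattice Y]
    (E : Set (X × Y)) (hE : ∀ e ∈ E, ∀ e' ∈ E, e ⊓ e' ∈ E) (hE2 : ∀ e ∈ E, ∀ e' ∈ E, e ⊔ e' ∈ E)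
    (s t : ℕ) (hs : 1 ≤ s) (hst : s ≤ t)
    (hfree : (completeBipartiteGraph (Fin s) (Fin t)).Free (relGraph E)) :
    E.ncard ≤ 16 * (t - 1) ^ 4 * (Fintype.card X + Fintype.card Y) := by
  classical
  obtain ⟨F, rfl⟩ := (Set.toFinite E).exists_finset_coe
  rw [Set.ncard_coe_finset]
  simp only [mem_coe] at hE hE2
  obtain ⟨r, rfl⟩ : ∃ r, t = r + 1 := ⟨t - 1, by omega⟩
  rw [Nat.add_sub_cancel]
  let P : Y → Finset X := fun y => univ.filter fun x => (x, y) ∈ F
  let Q : X → Finset Y := fun x => univ.filter fun y => (x, y) ∈ F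
  have hP : ∀ x y, x ∈ P y ↔ (x, y) ∈ F := fun x y => by simp [P]
  have hQ : ∀ x y, y ∈ Q x ↔ (x, y) ∈ F := fun x y => by simp [Q]
  have hPi : ∀ y, ∀ a ∈ P y, ∀ b ∈ P y, a ⊓ b ∈ P y := by
    intro y a ha b hb
    rw [hP] at *
    have := hE _ ha _ hb
    rwa [Prod.mk_inf_mk, inf_idem] at this
  have hPs : ∀ y, ∀ a ∈ P y, ∀ b ∈ P y, a ⊔ b ∈ P y := by
    intro y a ha b hb
    rw [hP] at *
    have := hE2 _ ha _ hb
    rwa [Prod.mk_sup_mk, sup_idem] at this
  have hQi : ∀ x, ∀ a ∈ Q x, ∀ b ∈ Q x, a ⊓ b ∈ Q x := by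
    intro x a ha b hb
    rw [hQ] at *
    have := hE _ ha _ hb
    rwa [Prod.mk_inf_mk, inf_idem] at this
  have hQs : ∀ x, ∀ a ∈ Q x, ∀ b ∈ Q x, a ⊔ b ∈ Q x := by
    intro x a ha b hb
    rw [hQ] at *
    have := hE2 _ ha _ hb
    rwa [Prod.mk_sup_mk, sup_idem] at this
  -- pairs with large down-set and up-set on the left have small degree on the right
  have hkey : ∀ x y, x ∈ P y → r < #((P y).filter fun z => z ≤ x) →
      r < #((P y).filter fun z => x ≤ z) → #(Q x) ≤ r ^ 2 := by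
    intro x y hxy h1 h2
    rw [hP] at hxy
    refine card_le_of_low_high (Q x) (hQi x) (hQs x) r y ((hQ _ _).2 hxy) ?_ ?_
    · by_contra h3
      refine not_free_left (s := s) (t := r + 1) (E := (F : Set (X × Y)))
        ((P y).filter fun z => z ≤ x) ((Q x).filter fun z => z ≤ y) (by omega) (by omega)
        (fun x' hx' y' hy' => ?_) hfree
      rw [mem_filter, hP] at hx'
      rw [mem_filter, hQ] at hy'
      have := hE _ hx'.1 _ hy'.1
      rw [Prod.mk_inf_mk, inf_eq_left.2 hx'.2, inf_eq_right.2 hy'.2] at this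
      exact mem_coe.2 this
    · by_contra h3
      refine not_free_left (s := s) (t := r + 1) (E := (F : Set (X × Y)))
        ((P y).filter fun z => x ≤ z) ((Q x).filter fun z => y ≤ z) (by omega) (by omega)
        (fun x' hx' y' hy' => ?_) hfree
      rw [mem_filter, hP] at hx'
      rw [mem_filter, hQ] at hy'
      have := hE2 _ hx'.1 _ hy'.1
      rw [Prod.mk_sup_mk, sup_eq_left.2 hx'.2, sup_eq_right.2 hy'.2] at this
      exact mem_coe.2 this
  -- counting
  set G : Finset (X × Y) := F.filter fun e => #(Q e.1) ≤ r ^ 2 with hG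
  have hG1 : #G ≤ r ^ 2 * Fintype.card X := by
    refine card_le_mul_card_image_of_maps_to (f := Prod.fst) (t := univ) (fun _ _ => mem_univ _)
      (r ^ 2) fun x _ => ?_
    by_cases hx : #(Q x) ≤ r ^ 2
    · refine le_trans (card_le_card_of_injOn Prod.snd ?_ ?_) hx
      · rintro ⟨a, b⟩ h
        rw [mem_coe, mem_filter, hG, mem_filter] at h
        obtain ⟨⟨h1, -⟩, h2⟩ := h
        simp only at h2
        rw [mem_coe, hQ, ← h2]
        exact h1
      · rintro ⟨a, b⟩ h ⟨a', b'⟩ h' hh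
        rw [mem_coe, mem_filter] at h h'
        simp only at hh
        ext
        · exact h.2.trans h'.2.symm
        · exact hh
    · have : (G.filter fun e => e.1 = x) = ∅ := by
        rw [filter_eq_empty_iff]
        rintro ⟨a, b⟩ h h2
        rw [hG, mem_filter] at h
        simp only at h2
        rw [h2] at h
        exact hx h.2
      rw [this]; simp
  have hfib : ∀ H : Finset (X × Y), #H = ∑ y : Y, #(univ.filter fun x => (x, y) ∈ H) := by
    intro H
    rw [card_eq_sum_card_fiberwise (f := Prod.snd) (s := H) (t := univ) fun _ _ => by simp]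
    refine sum_congr rfl fun y _ => ?_
    refine card_bij' (fun e _ => e.1) (fun x _ => (x, y)) ?_ ?_ ?_ ?_
    · rintro ⟨a, b⟩ he
      simp only [mem_filter, mem_univ, true_and] at he ⊢
      rw [← he.2]; exact he.1
    · intro x hx
      simp only [mem_filter, mem_univ, true_and] at hx ⊢
      exact ⟨hx, trivial⟩
    · rintro ⟨a, b⟩ he
      simp only [mem_filter] at he
      rw [← he.2]
    · intro x hx
      rfl
  have hy : ∀ y, #(P y) ≤ 16 * r ^ 4 + 2 * #(univ.filter fun x => (x, y) ∈ G) := by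
    intro y
    rcases le_total (16 * r ^ 4) #(P y) with h | h
    · have h1 := half (P y) (hPi y) (hPs y) r h
      have h2 : #((P y).filter fun x => r < #((P y).filter fun z => z ≤ x) ∧
          r < #((P y).filter fun z => x ≤ z)) ≤ #(univ.filter fun x => (x, y) ∈ G) := by
        refine card_le_card fun x hx => ?_
        rw [mem_filter] at hx
        rw [mem_filter, hG, mem_filter]
        exact ⟨mem_univ _, (hP _ _).1 hx.1, hkey x y hx.1 hx.2.1 hx.2.2⟩
      omega
    · omega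
  calc #F = ∑ y : Y, #(P y) := hfib F
    _ ≤ ∑ y : Y, (16 * r ^ 4 + 2 * #(univ.filter fun x => (x, y) ∈ G)) := sum_le_sum fun y _ => hy y
    _ = Fintype.card Y * (16 * r ^ 4) + 2 * #G := by
        rw [sum_add_distrib, sum_const, card_univ, smul_eq_mul, ← mul_sum, ← hfib]
    _ ≤ Fintype.card Y * (16 * r ^ 4) + 2 * (r ^ 2 * Fintype.card X) :=
        Nat.add_le_add_left (Nat.mul_le_mul_left _ hG1) _
    _ ≤ 16 * r ^ 4 * (Fintype.card X + Fintype.card Y) := by
        have h1 : 2 * r ^ 2 ≤ 16 * r ^ 4 := by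
          have : r ^ 2 ≤ r ^ 4 := by
            rcases Nat.eq_zero_or_pos r with h | h
            · rw [h]; norm_num
            · exact Nat.pow_le_pow_right h (by norm_num)
          omega
        calc Fintype.card Y * (16 * r ^ 4) + 2 * (r ^ 2 * Fintype.card X)
            = 16 * r ^ 4 * Fintype.card Y + 2 * r ^ 2 * Fintype.card X := by ring
          _ ≤ 16 * r ^ 4 * Fintype.card Y + 16 * r ^ 4 * Fintype.card X :=
              Nat.add_le_add_left (Nat.mul_le_mul_right _ h1) _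
          _ = _ := by ring

end Pool.Agent.Q174.LR
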