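import Pool.Agent.TH602.Turan.Bip

/-!
# Lattices of height at most three from linear spaces
-/

set_option autoImplicit false

universe u

namespace Pool.Agent.Q174.LR

open Finset SimpleGraph Pool.Agent.TH602.Turan

/-- A smallest element, a largest element, and in between points and lines. -/
inductive H3 (A B : Type u) : Type u
  | bot : H3 A B
  | pt : A → H3 A B
  | ln : B → H3 A B
  | top : H3 A B

namespace H3

variable {A B : Type u}

/-- The order: a point is below the lines incident with it. -/
inductive Le (I : Set (A × B)) : H3 A B → H3 A B → Prop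
  | bot (x : H3 A B) : Le I H3.bot x
  | top (x : H3 A B) : Le I x H3.top
  | pt (a : A) : Le I (H3.pt a) (H3.pt a)
  | ln (b : B) : Le I (H3.ln b) (H3.ln b)
  | inc (a : A) (b : B) (h : (a, b) ∈ I) : Le I (H3.pt a) (H3.ln b)

/-- No two points are incident with two common lines. -/
def Linear (I : Set (A × B)) : Prop :=
  ∀ a a' b b', (a, b) ∈ I → (a, b') ∈ I → (a', b) ∈ I → (a', b') ∈ I → a = a' ∨ b = b'

/-- The order of a linear space. -/
@[reducible] def po (I : Set (A × B)) : PartialOrder (H3 A B) where
  le := Le I
  le_refl x := by cases x <;> constructor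
  le_trans x y z h1 h2 := by
    cases h1 <;> cases h2 <;> constructor <;> assumption
  le_antisymm x y h1 h2 := by
    cases h1 <;> cases h2 <;> rfl

theorem exists_glb (I : Set (A × B)) (hI : Linear I) (x y : H3 A B) :
    ∃ z, Le I z x ∧ Le I z y ∧ ∀ w, Le I w x → Le I w y → Le I w z := by
  classical
  by_cases hxy : Le I x y
  · exact ⟨x, (po I).le_refl x, hxy, fun w h _ => h⟩
  by_cases hyx : Le I y x
  · exact ⟨y, hyx, (po I).le_refl y, fun w _ h => h⟩
  by_cases hc : ∃ a, Le I (pt a) x ∧ Le I (pt a) y
  · obtain ⟨a, ha, ha'⟩ := hc
    refine ⟨pt a, ha, ha', fun w h h' => ?_⟩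
    cases ha with
    | top => exact absurd (Le.top y) hyx
    | pt => exact absurd ha' hxy
    | inc _ b hb =>
      cases ha' with
      | top => exact absurd (Le.top _) hxy
      | pt => exact absurd (Le.inc _ _ hb) hyx
      | inc _ b' hb' =>
        cases h with
        | bot => constructor
        | ln =>
          cases h' with
          | ln => exact absurd (Le.ln _) hxy
        | inc a' _ h1 =>
          cases h' with
          | inc _ _ h2 =>
            rcases hI _ _ _ _ hb hb' h1 h2 with h3 | h3
            · rw [h3]; constructor
            · rw [h3] at hxy; exact absurd (Le.ln _) hxy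
  · refine ⟨bot, Le.bot _, Le.bot _, fun w h h' => ?_⟩
    cases w with
    | bot => constructor
    | pt a => exact absurd ⟨a, h, h'⟩ hc
    | ln b =>
      cases h with
      | top => exact absurd (Le.top y) hyx
      | ln => exact absurd h' hxy
    | top =>
      cases h with
      | top => exact absurd (Le.top y) hyx

theorem exists_lub (I : Set (A × B)) (hI : Linear I) (x y : H3 A B) :
    ∃ z, Le I x z ∧ Le I y z ∧ ∀ w, Le I x w → Le I y w → Le I z w := by
  classical
  by_cases hxy : Le I x y
  · exact ⟨y, hxy, (po I).le_refl y, fun w _ h => h⟩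
  by_cases hyx : Le I y x
  · exact ⟨x, (po I).le_refl x, hyx, fun w h _ => h⟩
  by_cases hc : ∃ b, Le I x (ln b) ∧ Le I y (ln b)
  · obtain ⟨b, hb, hb'⟩ := hc
    refine ⟨ln b, hb, hb', fun w h h' => ?_⟩
    cases hb with
    | bot => exact absurd (Le.bot y) hxy
    | ln => exact absurd hb' hyx
    | inc a _ ha =>
      cases hb' with
      | bot => exact absurd (Le.bot _) hyx
      | ln => exact absurd (Le.inc _ _ ha) hxy
      | inc a' _ ha' =>
        cases h with
        | top => constructor
        | pt =>
          cases h' with
          | pt => exact absurd (Le.pt _) hxy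
        | inc _ b' h1 =>
          cases h' with
          | inc _ _ h2 =>
            rcases hI _ _ _ _ ha h1 ha' h2 with h3 | h3
            · rw [h3] at hxy; exact absurd (Le.pt _) hxy
            · rw [h3]; constructor
  · refine ⟨top, Le.top _, Le.top _, fun w h h' => ?_⟩
    cases w with
    | bot =>
      cases h with
      | bot => exact absurd (Le.bot y) hxy
    | pt a =>
      cases h with
      | bot => exact absurd (Le.bot y) hxy
      | pt => exact absurd h' hyx
    | ln b => exact absurd ⟨b, h, h'⟩ hc
    | top => constructor

/-- The lattice of a linear space. -/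
@[reducible] noncomputable def lat (I : Set (A × B)) (hI : Linear I) : Lattice (H3 A B) where
  toPartialOrder := po I
  sup x y := (exists_lub I hI x y).choose
  inf x y := (exists_glb I hI x y).choose
  le_sup_left x y := (exists_lub I hI x y).choose_spec.1
  le_sup_right x y := (exists_lub I hI x y).choose_spec.2.1
  sup_le x y z h h' := (exists_lub I hI x y).choose_spec.2.2 z h h'
  inf_le_left x y := (exists_glb I hI x y).choose_spec.1
  inf_le_right x y := (exists_glb I hI x y).choose_spec.2.1
  le_inf x y z h h' := (exists_glb I hI y z).choose_spec.2.2 x h h'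

/-- Points, lines, and two more elements. -/
def equivSum (A B : Type u) : H3 A B ≃ Option (Option (A ⊕ B)) where
  toFun x := match x with
    | bot => none
    | top => some none
    | pt a => some (some (Sum.inl a))
    | ln b => some (some (Sum.inr b))
  invFun x := match x with
    | none => bot
    | some none => top
    | some (some (Sum.inl a)) => pt a
    | some (some (Sum.inr b)) => ln b
  left_inv x := by cases x <;> rfl
  right_inv x := by rcases x with _ | _ | _ | _ <;> rfl

noncomputable instance [Fintype A] [Fintype B] : Fintype (H3 A B) :=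
  Fintype.ofEquiv _ (equivSum A B).symm

theorem card [Fintype A] [Fintype B] :
    Fintype.card (H3 A B) = Fintype.card A + Fintype.card B + 2 := by
  rw [Fintype.card_congr (equivSum A B), Fintype.card_option, Fintype.card_option,
    Fintype.card_sum]

/-- In a projective plane two points lie on a line and two lines meet; then the lattice is
modular. -/
theorem modular (I : Set (A × B)) (hI : Linear I)
    (hpt : ∀ a b b', (a, b) ∈ I → (a, b') ∉ I → ∃ a', (a', b) ∈ I ∧ (a', b') ∈ I)
    (hln : ∀ a a' b, (a, b) ∈ I → (a', b) ∉ I → ∃ b', (a, b') ∈ I ∧ (a', b') ∈ I) :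
    @IsModularLattice (H3 A B) (lat I hI) := by
  letI : Lattice (H3 A B) := lat I hI
  have hle : ∀ x y : H3 A B, x ≤ y ↔ Le I x y := fun x y => Iff.rfl
  refine ⟨fun {x} y {z} hxz => ?_⟩
  rw [hle] at hxz
  cases hxz with
  | bot =>
    have : (bot : H3 A B) ⊔ y = y := sup_eq_right.2 (Le.bot y)
    rw [this]; exact le_sup_right
  | top => exact inf_le_left.trans (sup_le_sup_left (le_inf le_rfl (Le.top y)) x)
  | pt a => exact inf_le_right.trans le_sup_left
  | ln b => exact inf_le_right.trans le_sup_left
  | inc a b hab =>
    by_cases hy : y ≤ (ln b : H3 A B)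
    · exact inf_le_left.trans (sup_le_sup_left (le_inf le_rfl hy) _)
    by_cases hy' : (pt a : H3 A B) ≤ y
    · have h1 : (pt a : H3 A B) ⊔ y = y := sup_eq_right.2 hy'
      rw [h1]; exact le_sup_right
    cases y with
    | bot => exact absurd (Le.bot _) hy
    | top => exact absurd (Le.top _) hy'
    | pt a' =>
      -- `pt a ⊔ pt a'` is a line which meets `ln b` in `pt a`
      have h1 : (a', b) ∉ I := fun h => hy (Le.inc _ _ h)
      obtain ⟨b', hb1, hb2⟩ := hln a a' b hab h1
      have h2 : (pt a : H3 A B) ⊔ pt a' ≤ ln b' := sup_le (Le.inc _ _ hb1) (Le.inc _ _ hb2)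
      have h3 : ((pt a : H3 A B) ⊔ pt a') ⊓ ln b ≤ pt a := by
        refine (inf_le_inf_right _ h2).trans ?_
        have h4 : ((ln b' : H3 A B) ⊓ ln b) ≤ ln b' := inf_le_left
        have h5 : ((ln b' : H3 A B) ⊓ ln b) ≤ ln b := inf_le_right
        generalize ((ln b' : H3 A B) ⊓ ln b) = w at h4 h5 ⊢
        rw [hle] at h4 h5 ⊢
        cases h4 with
        | bot => constructor
        | ln =>
          cases h5 with
          | ln => exact absurd hb2 h1
        | inc a2 _ h6 =>
          cases h5 with
          | inc _ _ h7 =>
            rcases hI _ _ _ _ h6 h7 hb1 hab with h8 | h8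
            · rw [h8]; constructor
            · rw [h8] at hb2; exact absurd hb2 h1
      exact h3.trans le_sup_left
    | ln b' =>
      -- `ln b'` meets `ln b` in a point different from `pt a`
      have h1 : (a, b') ∉ I := fun h => hy' (Le.inc _ _ h)
      obtain ⟨a', ha1, ha2⟩ := hpt a b b' hab h1
      have h2 : (pt a' : H3 A B) ≤ ln b' ⊓ ln b := le_inf (Le.inc _ _ ha2) (Le.inc _ _ ha1)
      have h3 : (ln b : H3 A B) ≤ pt a ⊔ (ln b' ⊓ ln b) := by
        refine le_trans ?_ (sup_le_sup_left h2 _)
        have h4 : (pt a : H3 A B) ≤ pt a ⊔ pt a' := le_sup_left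
        have h5 : (pt a' : H3 A B) ≤ pt a ⊔ pt a' := le_sup_right
        generalize ((pt a : H3 A B) ⊔ pt a') = w at h4 h5 ⊢
        rw [hle] at h4 h5 ⊢
        cases h4 with
        | top => constructor
        | pt =>
          cases h5 with
          | pt => exact absurd ha2 h1
        | inc _ b2 h6 =>
          cases h5 with
          | inc _ _ h7 =>
            rcases hI _ _ _ _ h6 hab h7 ha1 with h8 | h8
            · rw [← h8] at ha2; exact absurd ha2 h1
            · rw [h8]; constructor
      exact inf_le_right.trans h3

/-- The order relation of the lattice contains no `K_{3,3}`. -/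
theorem order_free (I : Set (A × B)) (hI : Linear I) :
    letI : Lattice (H3 A B) := lat I hI
    (completeBipartiteGraph (Fin 3) (Fin 3)).Free
      (relGraph {e : H3 A B × H3 A B | e.1 ≤ e.2}) := by
  classical
  letI : Lattice (H3 A B) := lat I hI
  have hle : ∀ x y : H3 A B, x ≤ y ↔ Le I x y := fun x y => Iff.rfl
  have main : ∀ (S T : Finset (H3 A B)), #S = 3 → #T = 3 →
      ¬∀ x ∈ S, ∀ y ∈ T, (x, y) ∈ {e : H3 A B × H3 A B | e.1 ≤ e.2} := by
    intro S T hS hT h
    have hSne : S.Nonempty := card_pos.1 (by omega)
    set z := S.sup' hSne id with hz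
    have h1 : ∀ x ∈ S, x ≤ z := fun x hx => Finset.le_sup' id hx
    have h2 : ∀ y ∈ T, z ≤ y := fun y hy => Finset.sup'_le _ _ fun x hx => h x hx y hy
    -- `z` is not the bottom and not a point
    cases hzz : z with
    | bot =>
      have : S ⊆ {bot} := by
        intro x hx
        have := h1 x hx
        rw [hzz, hle] at this
        cases this; simp
      have := card_le_card this
      simp at this; omega
    | pt a =>
      have : S ⊆ {bot, pt a} := by
        intro x hx
        have := h1 x hx
        rw [hzz, hle] at this
        cases this <;> simp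
      have := (card_le_card this).trans card_le_two
      omega
    | ln b =>
      have : T ⊆ {ln b, top} := by
        intro x hx
        have := h2 x hx
        rw [hzz, hle] at this
        cases this <;> simp
      have := (card_le_card this).trans card_le_two
      omega
    | top =>
      have : T ⊆ {top} := by
        intro x hx
        have := h2 x hx
        rw [hzz, hle] at this
        cases this; simp
      have := card_le_card this
      simp at this; omega
  exact free_of (by norm_num) (by norm_num) (fun S T hS hT => main S T hS hT)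
    (fun S T hS hT => main S T hS hT)

end H3

end Pool.Agent.Q174.LR
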