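import Mathlib

/-!
# Many elements with small intervals: equal meets and equal joins
-/

set_option autoImplicit false

namespace Pool.Agent.Q174.LR

open Finset

theorem sun {Y : Type*} [Lattice Y] [DecidableEq Y] [DecidableLE Y] (Q : Finset Y)
    (hQ : ∀ a ∈ Q, ∀ b ∈ Q, a ⊓ b ∈ Q) (k r : ℕ) (hk : 2 ≤ k) :
    ∀ r' : ℕ, r' ≤ r → ∀ (p : Y) (M : Finset Y), p ∈ Q → M ⊆ Q → (∀ y ∈ M, p ≤ y) →
      (∀ y ∈ M, #(Q.filter fun z => p ≤ z ∧ z ≤ y) ≤ r') → (k * (r + 1)) ^ r' ≤ #M →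
      ∃ M' ⊆ M, #M' = k ∧ ∃ p', ∀ a ∈ M', ∀ b ∈ M', a ≠ b → a ⊓ b = p' := by
  intro r'
  induction r' with
  | zero =>
    intro _ p M _ hMQ hpM hint hcard
    exfalso
    rw [pow_zero] at hcard
    obtain ⟨y, hy⟩ := card_pos.1 hcard
    have h1 := hint y hy
    have h2 : y ∈ Q.filter fun z => p ≤ z ∧ z ≤ y := mem_filter.2 ⟨hMQ hy, hpM y hy, le_rfl⟩
    have := card_pos.2 ⟨y, h2⟩
    omega
  | succ r' ih =>
    intro hr' p M hpQ hMQ hpM hint hcard
    by_cases hbig : ∃ M' ⊆ M, k ≤ #M' ∧ ∀ a ∈ M', ∀ b ∈ M', a ≠ b → a ⊓ b = p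
    · obtain ⟨M', hM', hk', hm⟩ := hbig
      obtain ⟨M'', hM'', hc⟩ := exists_subset_card_eq hk'
      exact ⟨M'', hM''.trans hM', hc, p, fun a ha b hb => hm a (hM'' ha) b (hM'' hb)⟩
    push Not at hbig
    -- a maximal family with meets `p`
    set 𝓢 := M.powerset.filter fun M' => ∀ a ∈ M', ∀ b ∈ M', a ≠ b → a ⊓ b = p with h𝓢
    have hne : 𝓢.Nonempty := ⟨∅, by simp [h𝓢]⟩
    obtain ⟨M₀, hM₀, hmax⟩ := exists_max_image 𝓢 card hne
    rw [h𝓢, mem_filter, mem_powerset] at hM₀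
    have hlt : #M₀ < k := by
      by_contra hcon
      push Not at hcon
      obtain ⟨a, ha, b, hb, hab, hne'⟩ := hbig M₀ hM₀.1 hcon
      exact hne' (hM₀.2 a ha b hb hab)
    have hex : ∀ y ∈ M.erase p, ∃ y₀ ∈ M₀, y ⊓ y₀ ≠ p := by
      intro y hy
      rw [mem_erase] at hy
      by_contra hcon
      push Not at hcon
      have hy₀ : y ∉ M₀ := fun h => hy.1 (by simpa using hcon y h)
      have hmem : insert y M₀ ∈ 𝓢 := by
        rw [h𝓢, mem_filter, mem_powerset]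
        refine ⟨insert_subset hy.2 hM₀.1, ?_⟩
        intro a ha b hb hab
        rw [mem_insert] at ha hb
        rcases ha with rfl | ha <;> rcases hb with rfl | hb
        · exact absurd rfl hab
        · exact hcon b hb
        · rw [inf_comm]; exact hcon a ha
        · exact hM₀.2 a ha b hb hab
      have := hmax _ hmem
      rw [card_insert_of_notMem hy₀] at this
      omega
    choose! f hf hf' using hex
    set W := M₀.biUnion fun y₀ => (Q.filter fun z => p ≤ z ∧ z ≤ y₀).erase p with hW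
    have hWc : #W ≤ k * r := by
      refine card_biUnion_le.trans ?_
      calc ∑ y₀ ∈ M₀, #((Q.filter fun z => p ≤ z ∧ z ≤ y₀).erase p) ≤ ∑ y₀ ∈ M₀, r := by
            refine sum_le_sum fun y₀ hy₀ => ?_
            have h1 := hint y₀ (hM₀.1 hy₀)
            have h2 : p ∈ Q.filter fun z => p ≤ z ∧ z ≤ y₀ :=
              mem_filter.2 ⟨hpQ, le_rfl, hpM _ (hM₀.1 hy₀)⟩
            rw [card_erase_of_mem h2]
            omega
        _ = #M₀ * r := by rw [sum_const, smul_eq_mul]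
        _ ≤ k * r := Nat.mul_le_mul_right _ hlt.le
    have hmaps : ∀ y ∈ M.erase p, y ⊓ f y ∈ W := by
      intro y hy
      have hy' := mem_erase.1 hy
      have hfy := hM₀.1 (hf y hy)
      rw [hW, mem_biUnion]
      refine ⟨f y, hf y hy, ?_⟩
      rw [mem_erase, mem_filter]
      exact ⟨hf' y hy, hQ _ (hMQ hy'.2) _ (hMQ hfy), le_inf (hpM _ hy'.2) (hpM _ hfy), inf_le_right⟩
    have hpos : 1 ≤ (k * (r + 1)) ^ r' := Nat.one_le_pow _ _ (by positivity)
    have hpig : #W * ((k * (r + 1)) ^ r' - 1) < #(M.erase p) := by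
      have h1 : (k * (r + 1)) ^ (r' + 1) = k * r * (k * (r + 1)) ^ r' + k * (k * (r + 1)) ^ r' := by
        rw [pow_succ]; ring
      have h2 : #M ≤ #(M.erase p) + 1 := by
        have := pred_card_le_card_erase (s := M) (a := p)
        omega
      have h3 : #W * ((k * (r + 1)) ^ r' - 1) ≤ k * r * (k * (r + 1)) ^ r' :=
        Nat.mul_le_mul hWc (Nat.sub_le _ _)
      have h4 : 2 * 1 ≤ k * (k * (r + 1)) ^ r' := Nat.mul_le_mul hk hpos
      omega
    obtain ⟨z, hz, hzc⟩ := exists_lt_card_fiber_of_mul_lt_card_of_maps_to hmaps hpig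
    rw [hW, mem_biUnion] at hz
    obtain ⟨y₀, hy₀, hz⟩ := hz
    rw [mem_erase, mem_filter] at hz
    have hsub : ((M.erase p).filter fun x => x ⊓ f x = z) ⊆ M :=
      (filter_subset _ _).trans (erase_subset _ _)
    have hzle : ∀ y ∈ (M.erase p).filter fun x => x ⊓ f x = z, z ≤ y := by
      intro y hy
      rw [← (mem_filter.1 hy).2]
      exact inf_le_left
    have hint' : ∀ y ∈ (M.erase p).filter fun x => x ⊓ f x = z,
        #(Q.filter fun x => z ≤ x ∧ x ≤ y) ≤ r' := by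
      intro y hy
      have h3 := hint y (hsub hy)
      have h4 : (Q.filter fun x => z ≤ x ∧ x ≤ y) ⊆ (Q.filter fun x => p ≤ x ∧ x ≤ y).erase p := by
        intro x hx
        rw [mem_filter] at hx
        rw [mem_erase, mem_filter]
        refine ⟨?_, hx.1, hz.2.2.1.trans hx.2.1, hx.2.2⟩
        rintro rfl
        exact hz.1 (le_antisymm hx.2.1 hz.2.2.1)
      have h5 : p ∈ Q.filter fun x => p ≤ x ∧ x ≤ y := mem_filter.2 ⟨hpQ, le_rfl, hpM _ (hsub hy)⟩
      have h6 := card_le_card h4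
      rw [card_erase_of_mem h5] at h6
      omega
    obtain ⟨M', hM', h1, h2⟩ := ih (by omega) z ((M.erase p).filter fun x => x ⊓ f x = z) hz.2.1
      (hsub.trans hMQ) hzle hint' (by omega)
    exact ⟨M', hM'.trans hsub, h1, h2⟩

/-- Among many elements with small intervals to the bottom and to the top there are `k` elements
with equal pairwise meets and equal pairwise joins. -/
theorem sun2 {Y : Type*} [Lattice Y] [DecidableEq Y] [DecidableLE Y] (Q : Finset Y)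
    (hQ : ∀ a ∈ Q, ∀ b ∈ Q, a ⊓ b ∈ Q) (hQ' : ∀ a ∈ Q, ∀ b ∈ Q, a ⊔ b ∈ Q) (k r : ℕ) (hk : 2 ≤ k)
    (M : Finset Y) (hM : M ⊆ Q)
    (h1 : ∀ y ∈ M, #(Q.filter fun z => z ≤ y) ≤ r) (h2 : ∀ y ∈ M, #(Q.filter fun z => y ≤ z) ≤ r)
    (hc : ((k * (r + 1)) ^ r * (r + 1)) ^ r ≤ #M) :
    ∃ M' ⊆ M, #M' = k ∧ (∃ p, ∀ a ∈ M', ∀ b ∈ M', a ≠ b → a ⊓ b = p) ∧
      ∃ q, ∀ a ∈ M', ∀ b ∈ M', a ≠ b → a ⊔ b = q := by
  classical
  have hpos : 0 < #M := lt_of_lt_of_le (by positivity) hc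
  have hQne : Q.Nonempty := (card_pos.1 hpos).mono hM
  rcases Nat.eq_zero_or_pos r with rfl | hr
  · exfalso
    obtain ⟨y, hy⟩ := card_pos.1 hpos
    have h3 := h1 y hy
    have h4 : y ∈ Q.filter fun z => z ≤ y := mem_filter.2 ⟨hM hy, le_rfl⟩
    have := card_pos.2 ⟨y, h4⟩
    omega
  have hk' : 2 ≤ (k * (r + 1)) ^ r := by
    calc 2 ≤ k * 1 := by omega
      _ ≤ k * (r + 1) := Nat.mul_le_mul_left _ (by omega)
      _ ≤ (k * (r + 1)) ^ r := Nat.le_self_pow (by omega) _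
  obtain ⟨M₁, hM₁, hc₁, p, hp⟩ := sun Q hQ ((k * (r + 1)) ^ r) r hk' r le_rfl (Q.inf' hQne id) M
    (Finset.inf'_mem (Q : Set Y) (fun a ha b hb => hQ a ha b hb) Q hQne id fun i hi => hi) hM
    (fun y hy => Finset.inf'_le id (hM hy))
    (fun y hy => (card_le_card fun z hz => by
      rw [mem_filter] at hz ⊢
      exact ⟨hz.1, hz.2.2⟩).trans (h1 y hy)) hc
  obtain ⟨q₀, hq₀, hq₁⟩ : ∃ q₀ ∈ Q, ∀ y ∈ Q, y ≤ q₀ :=
    ⟨Q.sup' hQne id, Finset.sup'_mem (Q : Set Y) (fun a ha b hb => hQ' a ha b hb) Q hQne id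
      fun i hi => hi, fun y hy => Finset.le_sup' id hy⟩
  have h5 : ∀ y ∈ M₁, #(Q.filter fun z => z ≤ q₀ ∧ y ≤ z) ≤ r := fun y hy =>
    (card_le_card fun z hz => by
      rw [mem_filter] at hz ⊢
      exact ⟨hz.1, hz.2.2⟩).trans (h2 y (hM₁ hy))
  have h6 : ∀ y ∈ M₁, y ≤ q₀ := fun y hy => hq₁ y (hM (hM₁ hy))
  obtain ⟨M₂, hM₂, hc₂, q, hq⟩ := sun (Y := Yᵒᵈ) Q hQ' k r hk r le_rfl q₀ M₁ hq₀
    (hM₁.trans hM) h6 h5 hc₁.ge
  exact ⟨M₂, hM₂.trans hM₁, hc₂, ⟨p, fun a ha b hb => hp a (hM₂ ha) b (hM₂ hb)⟩, q, hq⟩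

/-- In a distributive lattice, `n` elements with pairwise joins `w` generate `2^n` meets. -/
theorem two_pow_le {X : Type*} [DistribLattice X] [DecidableEq X] (P : Finset X)
    (hP : ∀ a ∈ P, ∀ b ∈ P, a ⊓ b ∈ P) (w : X) (hw : w ∈ P) (U : Finset X) (hU : U ⊆ P)
    (hlt : ∀ u ∈ U, u < w) (hj : ∀ u ∈ U, ∀ u' ∈ U, u ≠ u' → u ⊔ u' = w) : 2 ^ #U ≤ #P := by
  have main : ∀ V ⊆ U, ∃ S ⊆ P, #S = 2 ^ #V ∧ ∀ c ∈ S, c ≤ w ∧
      ∀ u' ≤ w, (∀ u ∈ V, u ⊔ u' = w) → c ⊔ u' = w := by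
    intro V
    induction V using Finset.induction_on with
    | empty =>
      intro _
      refine ⟨{w}, by simpa using hw, by simp, ?_⟩
      intro c hc
      rw [mem_singleton] at hc
      subst hc
      exact ⟨le_rfl, fun u' hu' _ => sup_eq_left.2 hu'⟩
    | insert v V hv ih =>
      intro hsub
      obtain ⟨S, hSP, hSc, hS⟩ := ih ((subset_insert _ _).trans hsub)
      have hvU : v ∈ U := hsub (mem_insert_self _ _)
      have hVv : ∀ u ∈ V, u ⊔ v = w := fun u hu =>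
        hj u (hsub (mem_insert_of_mem hu)) v hvU (fun h => hv (h ▸ hu))
      have hcv : ∀ c ∈ S, c ⊔ v = w := fun c hc => (hS c hc).2 v (hlt v hvU).le hVv
      have hinj : Set.InjOn (fun c => c ⊓ v) (S : Set X) := by
        intro c hc d hd hcd
        have h1 := hcv c (mem_coe.1 hc)
        have h2 := hcv d (mem_coe.1 hd)
        exact eq_of_inf_eq_sup_eq hcd (h1.trans h2.symm)
      have hdisj : Disjoint S (S.image fun c => c ⊓ v) := by
        rw [disjoint_left]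
        intro c hc hc'
        obtain ⟨d, _, rfl⟩ := mem_image.1 hc'
        have h1 := hcv _ hc
        rw [sup_eq_right.2 inf_le_right] at h1
        exact (hlt v hvU).ne h1
      refine ⟨S ∪ S.image fun c => c ⊓ v, ?_, ?_, ?_⟩
      · refine union_subset hSP fun c hc => ?_
        obtain ⟨d, hd, rfl⟩ := mem_image.1 hc
        exact hP _ (hSP hd) _ (hU hvU)
      · rw [card_union_of_disjoint hdisj, card_image_of_injOn hinj, hSc,
          card_insert_of_notMem hv, pow_succ]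
        ring
      · intro c hc
        rw [mem_union] at hc
        rcases hc with hc | hc
        · exact ⟨(hS c hc).1, fun u' hu' h => (hS c hc).2 u' hu'
            fun u hu => h u (mem_insert_of_mem hu)⟩
        · obtain ⟨d, hd, rfl⟩ := mem_image.1 hc
          refine ⟨inf_le_left.trans (hS d hd).1, fun u' hu' h => ?_⟩
          rw [sup_inf_right, (hS d hd).2 u' hu' fun u hu => h u (mem_insert_of_mem hu),
            h v (mem_insert_self _ _), inf_idem]
  obtain ⟨S, hSP, hSc, -⟩ := main U Subset.rfl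
  rw [← hSc]
  exact card_le_card hSP

end Pool.Agent.Q174.LR
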