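import Pool.Agent.Q174.LR.Dist
import Pool.Agent.Q174.LR.Sun

/-!
# A linear bound if one of the two lattices is distributive
-/

set_option autoImplicit false

namespace Pool.Agent.Q174.LR

open Finset SimpleGraph Pool.Agent.TH602.Turan

section Rich

variable {X Y : Type*} [Fintype X] [Fintype Y] [DecidableEq X] [DecidableEq Y] [DistribLattice X]
  [Lattice Y] [DecidableLE X] [DecidableLE Y]

/-- Many neighbours of `x` of large down-set and up-set force a neighbour `p₀` of huge degree,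
near the top of whose neighbourhood `x` lies. -/
theorem rich (F : Finset (X × Y)) (hi : ∀ e ∈ F, ∀ e' ∈ F, e ⊓ e' ∈ F)
    (hs : ∀ e ∈ F, ∀ e' ∈ F, e ⊔ e' ∈ F) (r : ℕ)
    (hK : ∀ (S : Finset X) (T : Finset Y), r < #S → r < #T → ¬∀ x ∈ S, ∀ y ∈ T, (x, y) ∈ F)
    (x : X) (M : Finset Y) (hM : ∀ y ∈ M, (x, y) ∈ F)
    (hD : ∀ y ∈ M, r < #(univ.filter fun z => (z, y) ∈ F ∧ z ≤ x))
    (p q : Y) (hp : ∀ a ∈ M, ∀ b ∈ M, a ≠ b → a ⊓ b = p) (hq : ∀ a ∈ M, ∀ b ∈ M, a ≠ b → a ⊔ b = q)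
    (h2 : 2 ≤ #M) (hr : r < #M) :
    #(univ.filter fun z => (z, p) ∈ F ∧ x ≤ z) ≤ r ∧ 2 ^ #M ≤ #(univ.filter fun z => (z, p) ∈ F) := by
  have hother : ∀ y ∈ M, ∃ y' ∈ M, y' ≠ y := fun y _ => exists_mem_ne (by omega) y
  obtain ⟨y₀, hy₀⟩ : M.Nonempty := card_pos.1 (by omega)
  have hxp : (x, p) ∈ F := by
    obtain ⟨y₁, hy₁, hne⟩ := hother y₀ hy₀
    have := hi _ (hM _ hy₀) _ (hM _ hy₁)
    rwa [Prod.mk_inf_mk, inf_idem, hp _ hy₀ _ hy₁ hne.symm] at this
  have hxq : (x, q) ∈ F := by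
    obtain ⟨y₁, hy₁, hne⟩ := hother y₀ hy₀
    have := hs _ (hM _ hy₀) _ (hM _ hy₁)
    rwa [Prod.mk_sup_mk, sup_idem, hq _ hy₀ _ hy₁ hne.symm] at this
  have hpy : ∀ y ∈ M, p ≤ y := by
    intro y hy
    obtain ⟨y₁, hy₁, hne⟩ := hother y hy
    rw [← hp _ hy _ hy₁ hne.symm]; exact inf_le_left
  have hqy : ∀ y ∈ M, y ≤ q := by
    intro y hy
    obtain ⟨y₁, hy₁, hne⟩ := hother y hy
    rw [← hq _ hy _ hy₁ hne.symm]; exact le_sup_left
  refine ⟨?_, ?_⟩
  · by_contra hcon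
    push Not at hcon
    refine hK _ M hcon hr fun z hz y hy => ?_
    rw [mem_filter] at hz
    have := hs _ hz.2.1 _ (hM y hy)
    rwa [Prod.mk_sup_mk, sup_eq_left.2 hz.2.2, sup_eq_right.2 (hpy y hy)] at this
  · -- the smallest neighbour of `q`
    set Nq := univ.filter fun z => (z, q) ∈ F with hNq
    have hNqne : Nq.Nonempty := ⟨x, mem_filter.2 ⟨mem_univ _, hxq⟩⟩
    have hcl : ∀ (y : Y), ∀ a ∈ univ.filter (fun z => (z, y) ∈ F), ∀ b ∈ univ.filter
        (fun z => (z, y) ∈ F), a ⊓ b ∈ univ.filter (fun z => (z, y) ∈ F) := by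
      intro y a ha b hb
      rw [mem_filter] at *
      refine ⟨mem_univ _, ?_⟩
      have := hi _ ha.2 _ hb.2
      rwa [Prod.mk_inf_mk, inf_idem] at this
    obtain ⟨w, hw, hwle⟩ : ∃ w, (w, q) ∈ F ∧ ∀ z, (z, q) ∈ F → w ≤ z := by
      refine ⟨Nq.inf' hNqne id, ?_, fun z hz => ?_⟩
      · have := Finset.inf'_mem (Nq : Set X) (fun a ha b hb => hcl q a ha b hb) Nq hNqne id
          fun i hi => hi
        exact (mem_filter.1 this).2
      · have hz' : z ∈ Nq := mem_filter.2 ⟨mem_univ _, hz⟩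
        exact Finset.inf'_le id hz'
    -- the smallest neighbours of the elements of `M`
    have hex : ∀ y : Y, ∃ u, y ∈ M → (u, y) ∈ F ∧ ∀ z, (z, y) ∈ F → u ≤ z := by
      intro y
      by_cases hy : y ∈ M
      · have hne : (univ.filter fun z => (z, y) ∈ F).Nonempty :=
          ⟨x, mem_filter.2 ⟨mem_univ _, hM y hy⟩⟩
        refine ⟨(univ.filter fun z => (z, y) ∈ F).inf' hne id, fun _ => ⟨?_, fun z hz => ?_⟩⟩
        · have := Finset.inf'_mem ((univ.filter fun z => (z, y) ∈ F : Finset X) : Set X)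
            (fun a ha b hb => hcl y a ha b hb) _ hne id fun i hi => hi
          exact (mem_filter.1 this).2
        · have hz' : z ∈ univ.filter fun z => (z, y) ∈ F := mem_filter.2 ⟨mem_univ _, hz⟩
          exact Finset.inf'_le id hz'
      · exact ⟨x, fun h => absurd h hy⟩
    choose u hu using hex
    have hux : ∀ y ∈ M, u y ≤ x := fun y hy => (hu y hy).2 x (hM y hy)
    have hwx : w ≤ x := hwle x hxq
    have huw : ∀ y ∈ M, u y ≤ w := by
      intro y hy
      have h3 := hi _ hw _ (hM y hy)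
      rw [Prod.mk_inf_mk, inf_eq_left.2 hwx, inf_eq_right.2 (hqy y hy)] at h3
      exact (hu y hy).2 w h3
    have hjoin : ∀ a ∈ M, ∀ b ∈ M, a ≠ b → u a ⊔ u b = w := by
      intro a ha b hb hab
      refine le_antisymm (sup_le (huw a ha) (huw b hb)) ?_
      have h3 := hs _ (hu a ha).1 _ (hu b hb).1
      rw [Prod.mk_sup_mk, hq a ha b hb hab] at h3
      exact hwle _ h3
    have hlt : ∀ y ∈ M, u y < w := by
      intro y hy
      refine lt_of_le_of_ne (huw y hy) fun heq => ?_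
      refine hK _ M (hD y hy) hr fun z hz y' hy' => ?_
      rw [mem_filter] at hz
      have h3 : w ≤ z := heq ▸ (hu y hy).2 z hz.2.1
      have h4 := hs _ hz.2.1 _ hw
      rw [Prod.mk_sup_mk, sup_eq_left.2 h3, sup_eq_right.2 (hqy y hy)] at h4
      have h5 := hi _ h4 _ (hM y' hy')
      rwa [Prod.mk_inf_mk, inf_eq_left.2 hz.2.2, inf_eq_right.2 (hqy y' hy')] at h5
    have hinj : Set.InjOn u (M : Set Y) := by
      intro a ha b hb hab
      by_contra hne
      have h3 := hjoin a ha b hb hne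
      rw [hab, sup_idem] at h3
      exact (hlt b hb).ne h3
    have h6 := two_pow_le (univ.filter fun z => (z, p) ∈ F) (hcl p) w ?_ (M.image u) ?_ ?_ ?_
    · rwa [card_image_of_injOn hinj] at h6
    · rw [mem_filter]
      refine ⟨mem_univ _, ?_⟩
      have h3 := hi _ hw _ hxp
      rwa [Prod.mk_inf_mk, inf_eq_left.2 hwx, inf_eq_right.2 ((hpy _ hy₀).trans (hqy _ hy₀))] at h3
    · intro c hc
      obtain ⟨y, hy, rfl⟩ := mem_image.1 hc
      rw [mem_filter]
      refine ⟨mem_univ _, ?_⟩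
      have h3 := hi _ (hu y hy).1 _ hxp
      rwa [Prod.mk_inf_mk, inf_eq_left.2 (hux y hy), inf_eq_right.2 (hpy y hy)] at h3
    · intro c hc
      obtain ⟨y, hy, rfl⟩ := mem_image.1 hc
      exact hlt y hy
    · intro c hc d hd hcd
      obtain ⟨a, ha, rfl⟩ := mem_image.1 hc
      obtain ⟨b, hb, rfl⟩ := mem_image.1 hd
      exact hjoin a ha b hb fun h => hcd (by rw [h])

end Rich

/-- The asymptotic comparison used below. -/
theorem exists_threshold (r : ℕ) (hr : 1 ≤ r) : ∃ K : ℕ, ∀ d : ℕ, K ≤ d → ∃ k : ℕ, 2 ≤ k ∧ r < k ∧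
    ((k * (r + 1)) ^ r * (r + 1)) ^ r ≤ d ∧ 256 * r ^ 8 * d ^ 4 ≤ 2 ^ k := by
  let f : ℕ → ℕ := fun k => ((k * (r + 1)) ^ r * (r + 1)) ^ r
  have hfk : ∀ k, k ≤ f k := by
    intro k
    rcases Nat.eq_zero_or_pos k with h | h
    · omega
    · calc k = k * 1 := (Nat.mul_one k).symm
        _ ≤ k * (r + 1) := Nat.mul_le_mul_left _ (by omega)
        _ ≤ (k * (r + 1)) ^ r := Nat.le_self_pow (by omega) _
        _ ≤ (k * (r + 1)) ^ r * (r + 1) := Nat.le_mul_of_pos_right _ (by omega)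
        _ ≤ _ := Nat.le_self_pow (by omega) _
  -- a polynomial bound
  obtain ⟨C, hC⟩ : ∃ C : ℕ, C = 256 * r ^ 8 * (r + 1) ^ (4 * r * r + 4 * r) := ⟨_, rfl⟩
  have hpoly : ∀ k, 256 * r ^ 8 * (f k) ^ 4 = C * k ^ (4 * r * r) := by
    intro k
    simp only [f, hC]
    generalize r + 1 = a
    ring
  obtain ⟨k₁, hk₁⟩ : ∃ k₁ : ℕ, ∀ k, k₁ ≤ k → C * (k + 1) ^ (4 * r * r) ≤ 2 ^ k := by
    have h1 := tendsto_pow_const_div_const_pow_of_one_lt (4 * r * r) (by norm_num : (1 : ℝ) < 2)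
    have h2 : ∀ᶠ n : ℕ in Filter.atTop, (n : ℝ) ^ (4 * r * r) / 2 ^ n < 1 / (2 * (C + 1)) :=
      h1.eventually_lt_const (by positivity)
    obtain ⟨k₂, hk₂⟩ := Filter.eventually_atTop.1 h2
    refine ⟨k₂, fun k hk => ?_⟩
    have h3 := hk₂ (k + 1) (by omega)
    rw [div_lt_div_iff₀ (by positivity) (by positivity)] at h3
    have h4 : (((k + 1) ^ (4 * r * r) * (2 * (C + 1)) : ℕ) : ℝ) < ((1 * 2 ^ (k + 1) : ℕ) : ℝ) := by
      push_cast; push_cast at h3; exact h3
    have h5 : (k + 1) ^ (4 * r * r) * (2 * (C + 1)) < 1 * 2 ^ (k + 1) := by exact_mod_cast h4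
    rw [pow_succ 2 k] at h5
    generalize (k + 1) ^ (4 * r * r) = A at h5 ⊢
    generalize 2 ^ k = B at h5 ⊢
    nlinarith
  set k₀ := max k₁ (max 2 (r + 1)) with hk₀
  refine ⟨f k₀, fun d hd => ?_⟩
  -- the largest `k` with `f k ≤ d`
  obtain ⟨k, hk, hk'⟩ : ∃ k, f k ≤ d ∧ d < f (k + 1) ∧ k₀ ≤ k := by
    by_contra hcon
    push Not at hcon
    have h6 : ∀ n, f (k₀ + n) ≤ d := by
      intro n
      induction n with
      | zero => simpa using hd
      | succ n ih =>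
        by_contra h7
        push Not at h7
        have := hcon (k₀ + n) ih h7
        omega
    have := (hfk (k₀ + (d + 1))).trans (h6 (d + 1))
    omega
  refine ⟨k, by omega, by omega, hk, ?_⟩
  calc 256 * r ^ 8 * d ^ 4 ≤ 256 * r ^ 8 * (f (k + 1)) ^ 4 :=
        Nat.mul_le_mul_left _ (Nat.pow_le_pow_left hk'.1.le 4)
    _ = C * (k + 1) ^ (4 * r * r) := hpoly _
    _ ≤ 2 ^ k := hk₁ k (by omega)

/-- If `m` elements have degree at most `δ` each, they contribute little. -/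
theorem contrib {m δ n r : ℕ} (h1 : m ^ 2 ≤ r ^ 4 * n) (h2 : 256 * r ^ 8 * δ ^ 4 ≤ n) :
    4 * (m * δ) ≤ n := by
  rcases Nat.eq_zero_or_pos n with h | h
  · subst h
    have : m ^ 2 ≤ 0 := by simpa using h1
    have : m = 0 := by
      rcases Nat.eq_zero_or_pos m with h | h
      · exact h
      · have := Nat.pow_pos (n := 2) h; omega
    subst this; simp
  refine le_of_pow_le_pow_left₀ (n := 4) (by norm_num) (Nat.zero_le _) ?_
  rcases Nat.eq_zero_or_pos r with hr | hr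
  · subst hr
    have : m ^ 2 ≤ 0 := by simpa using h1
    have : m = 0 := by
      rcases Nat.eq_zero_or_pos m with h | h
      · exact h
      · have := Nat.pow_pos (n := 2) h; omega
    subst this; simp
  have h3 : m ^ 4 ≤ r ^ 8 * n ^ 2 := by
    calc m ^ 4 = (m ^ 2) ^ 2 := by ring
      _ ≤ (r ^ 4 * n) ^ 2 := Nat.pow_le_pow_left h1 2
      _ = r ^ 8 * n ^ 2 := by ring
  calc (4 * (m * δ)) ^ 4 = 256 * m ^ 4 * δ ^ 4 := by ring
    _ ≤ 256 * (r ^ 8 * n ^ 2) * δ ^ 4 := by gcongr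
    _ = (256 * r ^ 8 * δ ^ 4) * n ^ 2 := by ring
    _ ≤ n * n ^ 2 := Nat.mul_le_mul_right _ h2
    _ = n ^ 3 := by ring
    _ ≤ n ^ 4 := Nat.pow_le_pow_right h (by norm_num)

/-- The linear bound if `X` is distributive and `Y` is any lattice. -/
theorem linear_one (t : ℕ) : ∃ C : ℕ, ∀ {X Y : Type*} [Fintype X] [Fintype Y] [DistribLattice X]
    [Lattice Y] (E : Set (X × Y)), (∀ e ∈ E, ∀ e' ∈ E, e ⊓ e' ∈ E) →
    (∀ e ∈ E, ∀ e' ∈ E, e ⊔ e' ∈ E) → ∀ s : ℕ, 1 ≤ s → s ≤ t →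
    (completeBipartiteGraph (Fin s) (Fin t)).Free (relGraph E) →
    E.ncard ≤ C * (Fintype.card X + Fintype.card Y) := by
  classical
  rcases Nat.lt_or_ge t 2 with ht | ht
  · -- `t ≤ 1`: no pairs at all
    refine ⟨0, fun {X Y} _ _ _ _ E hE hE2 s hs hst hfree => ?_⟩
    rw [Nat.zero_mul, Nat.le_zero]
    by_contra hne
    obtain ⟨⟨x, y⟩, hxy⟩ := Set.nonempty_of_ncard_ne_zero hne
    refine not_free_left (s := s) (t := t) (E := E) {x} {y} (by simp; omega) (by simp; omega)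
      (fun a ha b hb => ?_) hfree
    rw [mem_singleton] at ha hb
    rw [ha, hb]; exact hxy
  obtain ⟨r, rfl⟩ : ∃ r, t = r + 1 := ⟨t - 1, by omega⟩
  obtain ⟨K, hKd⟩ := exists_threshold r (by omega)
  refine ⟨32 * r ^ 4 + 4 * K, fun {X Y} _ _ _ _ E hE hE2 s hs hst hfree => ?_⟩
  obtain ⟨F, rfl⟩ := (Set.toFinite E).exists_finset_coe
  rw [Set.ncard_coe_finset]
  simp only [mem_coe] at hE hE2
  rcases isEmpty_or_nonempty Y with hYe | hYn
  · have : F = ∅ := by
      rw [eq_empty_iff_forall_notMem]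
      rintro ⟨x, y⟩
      exact (hYe.false y).elim
    rw [this]; simp
  have hK : ∀ (S : Finset X) (T : Finset Y), r < #S → r < #T → ¬∀ x ∈ S, ∀ y ∈ T, (x, y) ∈ F :=
    fun S T hS hT h => not_free_left (s := s) (t := r + 1) S T (by omega) (by omega)
      (fun x hx y hy => mem_coe.2 (h x hx y hy)) hfree
  let P : Y → Finset X := fun y => univ.filter fun x => (x, y) ∈ F
  let Q : X → Finset Y := fun x => univ.filter fun y => (x, y) ∈ F
  have hP : ∀ x y, x ∈ P y ↔ (x, y) ∈ F := fun x y => by simp [P]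
  have hQ : ∀ x y, y ∈ Q x ↔ (x, y) ∈ F := fun x y => by simp [Q]
  have hPi : ∀ y, ∀ a ∈ P y, ∀ b ∈ P y, a ⊓ b ∈ P y := by
    intro y a ha b hb
    rw [hP] at *
    have := hE _ ha _ hb
    rwa [Prod.mk_inf_mk, inf_idem] at this
  have hPs : ∀ y, ∀ a ∈ P y, ∀ b ∈ P y, a ⊔ b ∈ P y := by
    intro y a ha b hb
    rw [hP] at *
    have := hE2 _ ha _ hb
    rwa [Prod.mk_sup_mk, sup_idem] at this
  have hQi : ∀ x, ∀ a ∈ Q x, ∀ b ∈ Q x, a ⊓ b ∈ Q x := by
    intro x a ha b hb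
    rw [hQ] at *
    have := hE _ ha _ hb
    rwa [Prod.mk_inf_mk, inf_idem] at this
  have hQs : ∀ x, ∀ a ∈ Q x, ∀ b ∈ Q x, a ⊔ b ∈ Q x := by
    intro x a ha b hb
    rw [hQ] at *
    have := hE2 _ ha _ hb
    rwa [Prod.mk_sup_mk, sup_idem] at this
  -- pairs with large down-set and large up-set
  set G : Finset (X × Y) := F.filter fun e => r < #((P e.2).filter fun z => z ≤ e.1) ∧
    r < #((P e.2).filter fun z => e.1 ≤ z) with hG
  have hmG : ∀ x y, (x, y) ∈ G ↔ (x, y) ∈ F ∧ r < #((P y).filter fun z => z ≤ x) ∧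
      r < #((P y).filter fun z => x ≤ z) := by
    intro x y; rw [hG, mem_filter]
  let M : X → Finset Y := fun x => univ.filter fun y => (x, y) ∈ G
  have hmM : ∀ x y, y ∈ M x ↔ (x, y) ∈ G := fun x y => by simp [M]
  have hfib : ∀ H : Finset (X × Y), #H = ∑ y : Y, #(univ.filter fun x => (x, y) ∈ H) := by
    intro H
    rw [card_eq_sum_card_fiberwise (f := Prod.snd) (s := H) (t := univ) fun _ _ => by simp]
    refine sum_congr rfl fun y _ => ?_
    refine card_bij' (fun e _ => e.1) (fun x _ => (x, y)) ?_ ?_ ?_ ?_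
    · rintro ⟨a, b⟩ he
      simp only [mem_filter, mem_univ, true_and] at he ⊢
      rw [← he.2]; exact he.1
    · intro x hx
      simp only [mem_filter, mem_univ, true_and] at hx ⊢
      exact ⟨hx, trivial⟩
    · rintro ⟨a, b⟩ he
      simp only [mem_filter] at he
      rw [← he.2]
    · intro x hx
      rfl
  have hfib' : #G = ∑ x : X, #(M x) := by
    rw [card_eq_sum_card_fiberwise (f := Prod.fst) (s := G) (t := univ) fun _ _ => by simp]
    refine sum_congr rfl fun x _ => ?_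
    refine card_bij' (fun e _ => e.2) (fun y _ => (x, y)) ?_ ?_ ?_ ?_
    · rintro ⟨a, b⟩ he
      rw [mem_filter] at he
      simp only at he ⊢
      rw [hmM, ← he.2]; exact he.1
    · intro y hy
      rw [hmM] at hy
      rw [mem_filter]
      exact ⟨hy, rfl⟩
    · rintro ⟨a, b⟩ he
      rw [mem_filter] at he
      rw [← he.2]
    · intro y hy
      rfl
  -- step 1
  have hy : ∀ y, #(P y) ≤ 16 * r ^ 4 + 2 * #(univ.filter fun x => (x, y) ∈ G) := by
    intro y
    rcases le_total (16 * r ^ 4) #(P y) with h | h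
    · have h1 := half (P y) (hPi y) (hPs y) r h
      have h2 : #((P y).filter fun x => r < #((P y).filter fun z => z ≤ x) ∧
          r < #((P y).filter fun z => x ≤ z)) ≤ #(univ.filter fun x => (x, y) ∈ G) := by
        refine card_le_card fun x hx => ?_
        rw [mem_filter] at hx
        rw [mem_filter, hmG]
        exact ⟨mem_univ _, (hP _ _).1 hx.1, hx.2.1, hx.2.2⟩
      omega
    · omega
  have hstep1 : #F ≤ 16 * r ^ 4 * Fintype.card Y + 2 * #G := by
    calc #F = ∑ y : Y, #(P y) := hfib F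
      _ ≤ ∑ y : Y, (16 * r ^ 4 + 2 * #(univ.filter fun x => (x, y) ∈ G)) :=
          sum_le_sum fun y _ => hy y
      _ = _ := by
          rw [sum_add_distrib, sum_const, card_univ, smul_eq_mul, ← mul_sum, ← hfib]; ring
  -- step 2: elements of large degree in `G`
  have hrich : ∀ x, K ≤ #(M x) → ∃ p, #((P p).filter fun z => x ≤ z) ≤ r ∧ x ∈ P p ∧
      256 * r ^ 8 * #(M x) ^ 4 ≤ #(P p) := by
    intro x hx
    obtain ⟨k, hk2, hkr, hkd, hk4⟩ := hKd _ hx
    have hMQ : M x ⊆ Q x := fun y hy => (hQ _ _).2 ((hmG _ _).1 ((hmM _ _).1 hy)).1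
    have hlow : ∀ y ∈ M x, #((Q x).filter fun z => z ≤ y) ≤ r := by
      intro y hy
      have h1 := (hmG _ _).1 ((hmM _ _).1 hy)
      by_contra hcon
      push Not at hcon
      refine hK _ _ h1.2.1 hcon fun x' hx' y' hy' => ?_
      rw [mem_filter, hP] at hx'
      rw [mem_filter, hQ] at hy'
      have := hE _ hx'.1 _ hy'.1
      rwa [Prod.mk_inf_mk, inf_eq_left.2 hx'.2, inf_eq_right.2 hy'.2] at this
    have hupp : ∀ y ∈ M x, #((Q x).filter fun z => y ≤ z) ≤ r := by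
      intro y hy
      have h1 := (hmG _ _).1 ((hmM _ _).1 hy)
      by_contra hcon
      push Not at hcon
      refine hK _ _ h1.2.2 hcon fun x' hx' y' hy' => ?_
      rw [mem_filter, hP] at hx'
      rw [mem_filter, hQ] at hy'
      have := hE2 _ hx'.1 _ hy'.1
      rwa [Prod.mk_sup_mk, sup_eq_left.2 hx'.2, sup_eq_right.2 hy'.2] at this
    obtain ⟨M', hM', hc, ⟨p, hp⟩, q, hq⟩ := sun2 (Q x) (hQi x) (hQs x) k r hk2 (M x) hMQ hlow hupp hkd
    have hM1 : ∀ y ∈ M', (x, y) ∈ F := fun y hy => (hQ _ _).1 (hMQ (hM' hy))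
    have hM2 : ∀ y ∈ M', r < #(univ.filter fun z => (z, y) ∈ F ∧ z ≤ x) := by
      intro y hy
      have h1 := ((hmG _ _).1 ((hmM _ _).1 (hM' hy))).2.1
      have h2 : ((P y).filter fun z => z ≤ x) = univ.filter fun z => (z, y) ∈ F ∧ z ≤ x := by
        ext z; simp [P]
      rwa [h2] at h1
    have h3 := rich F hE hE2 r hK x M' hM1 hM2 p q hp hq (by omega) (by omega)
    refine ⟨p, ?_, ?_, ?_⟩
    · have h4 : ((P p).filter fun z => x ≤ z) = univ.filter fun z => (z, p) ∈ F ∧ x ≤ z := by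
        ext z; simp [P]
      rw [h4]; exact h3.1
    · obtain ⟨a, ha, b, hb, hab⟩ := one_lt_card.1 (by omega : 1 < #M')
      rw [hP]
      have := hE _ (hM1 a ha) _ (hM1 b hb)
      rwa [Prod.mk_inf_mk, inf_idem, hp a ha b hb hab] at this
    · rw [hc] at h3
      exact hk4.trans h3.2
  choose! π hπ1 hπ2 hπ3 using hrich
  set R : Finset X := univ.filter fun x => K ≤ #(M x) with hR
  have hmR : ∀ x, x ∈ R ↔ K ≤ #(M x) := fun x => by simp [hR]
  have hstep2 : 4 * ∑ x ∈ R, #(M x) ≤ #F := by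
    have h1 : ∑ x ∈ R, #(M x) = ∑ p : Y, ∑ x ∈ R.filter (fun x => π x = p), #(M x) :=
      (sum_fiberwise_of_maps_to (fun _ _ => mem_univ _) _).symm
    rw [h1, mul_sum, hfib F]
    refine sum_le_sum fun p _ => ?_
    change _ ≤ #(P p)
    set δ := (R.filter fun x => π x = p).sup fun x => #(M x) with hδ
    have h2 : ∑ x ∈ R.filter (fun x => π x = p), #(M x) ≤ #(R.filter fun x => π x = p) * δ := by
      rw [← smul_eq_mul]
      exact sum_le_card_nsmul _ _ _ fun x hx => le_sup (f := fun x => #(M x)) hx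
    refine (Nat.mul_le_mul_left 4 h2).trans ?_
    rcases (R.filter fun x => π x = p).eq_empty_or_nonempty with h0 | h0
    · rw [h0]; simp
    refine contrib (r := r) ?_ ?_
    · refine le_trans (Nat.pow_le_pow_left (card_le_card fun x hx => ?_) 2)
        (few_low (X := Xᵒᵈ) (P p) (hPs p) (hPi p) r)
      rw [mem_filter, hmR] at hx
      have h3 := hπ1 x hx.1
      have h4 := hπ2 x hx.1
      rw [hx.2] at h3 h4
      exact mem_filter.2 ⟨h4, h3⟩
    · obtain ⟨x, hx, hx'⟩ := exists_mem_eq_sup _ h0 fun x => #(M x)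
      rw [hδ, hx']
      rw [mem_filter, hmR] at hx
      have h3 := hπ3 x hx.1
      rwa [hx.2] at h3
  have hstep3 : #G ≤ K * Fintype.card X + ∑ x ∈ R, #(M x) := by
    rw [hfib', ← sum_filter_add_sum_filter_not (s := (univ : Finset X)) (p := fun x => K ≤ #(M x)),
      ← hR, Nat.add_comm]
    refine Nat.add_le_add_right ?_ _
    calc ∑ x ∈ univ.filter (fun x => ¬K ≤ #(M x)), #(M x)
        ≤ #(univ.filter fun x => ¬K ≤ #(M x)) • K := sum_le_card_nsmul _ _ _ fun x hx => by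
          rw [mem_filter] at hx; omega
      _ ≤ K * Fintype.card X := by
          rw [smul_eq_mul, mul_comm]
          exact Nat.mul_le_mul_left _ (card_le_univ _)
  have h1 : (32 * r ^ 4 + 4 * K) * (Fintype.card X + Fintype.card Y) =
      32 * r ^ 4 * Fintype.card X + 2 * (16 * r ^ 4 * Fintype.card Y) + 4 * (K * Fintype.card X) +
        4 * K * Fintype.card Y := by ring
  rw [h1]
  omega

end Pool.Agent.Q174.LR
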