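import Pool.Agent.Q174.LR.H3

/-!
# Modular lattices whose order relation has exponent `3/2`
-/

set_option autoImplicit false

namespace Pool.Agent.Q174.LR

open Finset SimpleGraph Pool.Agent.TH602.Turan Configuration LinearAlgebra.Projectivization

theorem plane_linear {P L : Type} [Membership P L] [ProjectivePlane P L] :
    H3.Linear {e : P × L | e.1 ∈ e.2} := fun _ _ _ _ h1 h2 h3 h4 =>
  Nondegenerate.eq_or_eq h1 h3 h2 h4

theorem plane_card {P L : Type} [Membership P L] [ProjectivePlane P L] [Fintype P] [Fintype L] :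
    ({e : P × L | e.1 ∈ e.2} : Set (P × L)).ncard =
      (ProjectivePlane.order P L ^ 2 + ProjectivePlane.order P L + 1) *
        (ProjectivePlane.order P L + 1) := by
  have h1 : {e : P × L | e.1 ∈ e.2} ≃ Σ l : L, {p : P // p ∈ l} :=
    { toFun := fun e => ⟨e.1.2, e.1.1, e.2⟩
      invFun := fun s => ⟨(s.2.1, s.1), s.2.2⟩
      left_inv := fun _ => rfl
      right_inv := fun _ => rfl }
  rw [← Nat.card_coe_set_eq, Nat.card_congr h1, Nat.card_sigma]
  have h2 : ∀ l : L, Nat.card {p : P // p ∈ l} = ProjectivePlane.order P L + 1 := fun l =>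
    ProjectivePlane.pointCount_eq P l
  rw [sum_congr rfl fun l _ => h2 l, sum_const, card_univ, smul_eq_mul,
    ProjectivePlane.card_lines P L]

theorem arith (q : ℕ) (hq : 1 < q) : ((q ^ 2 + q + 1) + (q ^ 2 + q + 1) + 2) ^ 3 ≤
    16 * ((q ^ 2 + q + 1) * (q + 1)) ^ 2 := by
  obtain ⟨c, hc⟩ : ∃ c, c = q ^ 2 + q + 1 := ⟨_, rfl⟩
  rw [← hc]
  have h1 : c + 1 ≤ (q + 1) ^ 2 := by rw [hc]; nlinarith
  have h2 : 3 ≤ c := by rw [hc]; nlinarith
  have h3 : (c + 1) ^ 2 ≤ 2 * c ^ 2 := by nlinarith
  calc (c + c + 2) ^ 3 = 8 * ((c + 1) ^ 2 * (c + 1)) := by ring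
    _ ≤ 8 * (2 * c ^ 2 * (q + 1) ^ 2) := Nat.mul_le_mul_left _ (Nat.mul_le_mul h3 h1)
    _ = 16 * (c * (q + 1)) ^ 2 := by ring

/-- Large modular lattices whose order relation has no `K_{3,3}` and at least `|X|^{3/2} / 4`
elements. -/
theorem exists_modular (n : ℕ) : ∃ (X : Type) (_ : Fintype X) (_ : Lattice X)
    (_ : IsModularLattice X), n ≤ Fintype.card X ∧
      (completeBipartiteGraph (Fin 3) (Fin 3)).Free (relGraph {e : X × X | e.1 ≤ e.2}) ∧
      Fintype.card X ^ 3 ≤ 16 * {e : X × X | e.1 ≤ e.2}.ncard ^ 2 := by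
  classical
  obtain ⟨p, hnp, hp⟩ := Nat.exists_infinite_primes n
  have : Fact p.Prime := ⟨hp⟩
  let K := ZMod p
  let P := ℙ K (Fin 3 → K)
  have : Finite P := inferInstance
  have : Fintype P := Fintype.ofFinite P
  let I : Set (P × P) := {e : P × P | e.1 ∈ e.2}
  have hI : H3.Linear I := plane_linear
  let lat : Lattice (H3 P P) := H3.lat I hI
  have hmod : @IsModularLattice (H3 P P) lat := by
    refine H3.modular I hI ?_ ?_
    · intro a b b' h h'
      have hne : b ≠ b' := fun hb => h' (hb ▸ h)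
      have h2 := HasPoints.mkPoint_ax (P := P) (L := P) hne
      exact ⟨_, h2.1, h2.2⟩
    · intro a a' b h h'
      have hne : a ≠ a' := fun hb => h' (hb ▸ h)
      have h2 := HasLines.mkLine_ax (P := P) (L := P) hne
      exact ⟨_, h2.1, h2.2⟩
  have hcardP : Fintype.card P = ProjectivePlane.order P P ^ 2 + ProjectivePlane.order P P + 1 :=
    ProjectivePlane.card_points P P
  refine ⟨H3 P P, inferInstance, lat, hmod, ?_, H3.order_free I hI, ?_⟩
  · -- the plane has at least `p` points
    rw [H3.card]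
    have hv : ∀ a : K, (![1, a, 0] : Fin 3 → K) ≠ 0 := by
      intro a h
      have := congrFun h 0
      simp at this
    let f : K → P := fun a => Projectivization.mk K (![1, a, 0] : Fin 3 → K) (hv a)
    have hinj : Function.Injective f := by
      intro a b hab
      simp only [f] at hab
      rw [Projectivization.mk_eq_mk_iff'] at hab
      obtain ⟨c, hc⟩ := hab
      have h0 := congrFun hc 0
      have h1 := congrFun hc 1
      simp at h0 h1
      rw [h0, one_mul] at h1
      exact h1.symm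
    have := Fintype.card_le_of_injective _ hinj
    rw [ZMod.card] at this
    omega
  · rw [H3.card, hcardP]
    refine (arith _ (ProjectivePlane.one_lt_order P P)).trans (Nat.mul_le_mul_left _
      (Nat.pow_le_pow_left ?_ 2))
    rw [← plane_card (P := P) (L := P)]
    refine Set.ncard_le_ncard_of_injOn (fun e => (H3.pt e.1, H3.ln e.2)) ?_ ?_ (Set.toFinite _)
    · rintro ⟨a, b⟩ h
      exact H3.Le.inc a b h
    · rintro ⟨a, b⟩ - ⟨a', b'⟩ - h
      simpa using h

end Pool.Agent.Q174.LR
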