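import Pool.Agent.TH602.Turan.Drop

/-!
# Relations between arbitrary lattices closed under meets and joins: the exponent `3/2`
-/

set_option autoImplicit false

namespace Pool.Agent.Q174.LR

open Finset SimpleGraph Pool.Agent.TH602.Turan

section Half

variable {X Y : Type*} [Fintype X] [Fintype Y] [DecidableEq X] [DecidableEq Y] [Lattice X]
  [Lattice Y] [DecidableLE X]

/-- The neighbours of `y`. -/
def nb (F : Finset (X × Y)) (y : Y) : Finset X := univ.filter fun x => (x, y) ∈ F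

omit [Fintype Y] [Lattice X] [Lattice Y] [DecidableLE X] in
theorem mem_nb (F : Finset (X × Y)) (x : X) (y : Y) : x ∈ nb F y ↔ (x, y) ∈ F := by
  simp [nb]

/-- The elements of the domain between the meet and the join of two elements. -/
def itv (F : Finset (X × Y)) (e : X × X) : Finset X :=
  (F.image Prod.fst).filter fun x => e.1 ⊓ e.2 ≤ x ∧ x ≤ e.1 ⊔ e.2

/-- The neighbours of `y` with at most `r` neighbours of `y` below. -/
def sml (F : Finset (X × Y)) (r : ℕ) (y : Y) : Finset X :=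
  (nb F y).filter fun x => #((nb F y).filter fun z => z ≤ x) ≤ r

omit [DecidableEq X] [Fintype Y] [DecidableLE X] [Fintype X] [DecidableEq Y] in
theorem convex (F : Finset (X × Y)) (hi : ∀ e ∈ F, ∀ e' ∈ F, e ⊓ e' ∈ F)
    (hs : ∀ e ∈ F, ∀ e' ∈ F, e ⊔ e' ∈ F) (x x' x'' : X) (y y' : Y) (h : (x, y) ∈ F)
    (h'' : (x'', y) ∈ F) (h' : (x', y') ∈ F) (h1 : x ≤ x') (h2 : x' ≤ x'') : (x', y) ∈ F := by
  have h3 := hi _ h' _ h''
  rw [Prod.mk_inf_mk, inf_eq_left.2 h2] at h3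
  have h4 := hs _ h3 _ h
  rwa [Prod.mk_sup_mk, sup_eq_left.2 h1, sup_eq_right.2 inf_le_right] at h4

/-- There are few pairs with small intervals. -/
theorem bad_le (F : Finset (X × Y)) (hi : ∀ e ∈ F, ∀ e' ∈ F, e ⊓ e' ∈ F)
    (hs : ∀ e ∈ F, ∀ e' ∈ F, e ⊔ e' ∈ F) (r : ℕ) (y : Y) :
    (#((sml F r y ×ˢ sml F r y).filter fun e => #(itv F e) ≤ r) : ℝ) ≤
      r ^ 2 * #(nb F y) * √(#(nb F y) : ℝ) := by
  set P := nb F y with hP
  set A := sml F r y with hA
  set B := (A ×ˢ A).filter fun e => #(itv F e) ≤ r with hB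
  have hmA : ∀ x, x ∈ A ↔ (x, y) ∈ F ∧ #(P.filter fun z => z ≤ x) ≤ r := by
    intro x; rw [hA, sml, mem_filter, mem_nb]
  have hmP : ∀ x, x ∈ P ↔ (x, y) ∈ F := fun x => mem_nb F x y
  have hPi : ∀ a ∈ P, ∀ b ∈ P, a ⊓ b ∈ P := by
    intro a ha b hb
    rw [hmP] at *
    have := hi _ ha _ hb
    rwa [Prod.mk_inf_mk, inf_idem] at this
  have hPs : ∀ a ∈ P, ∀ b ∈ P, a ⊔ b ∈ P := by
    intro a ha b hb
    rw [hmP] at *
    have := hs _ ha _ hb
    rwa [Prod.mk_sup_mk, sup_idem] at this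
  have hAP : A ⊆ P := filter_subset _ _
  -- the number of elements of `A` above `z`
  have hz : ∀ z ∈ P, (#(B.filter fun e => e.1 ⊓ e.2 = z) : ℝ) ≤
      #(A.filter fun x => z ≤ x) * (r * √(#P : ℝ)) := by
    intro z _
    have h1 : #(B.filter fun e => e.1 ⊓ e.2 = z) ≤ #(A.filter fun x => z ≤ x) ^ 2 := by
      rw [sq, ← card_product]
      refine card_le_card ?_
      rintro ⟨a, b⟩ h
      rw [mem_filter, hB, mem_filter, mem_product] at h
      obtain ⟨⟨⟨ha, hb⟩, -⟩, hab⟩ := h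
      simp only at ha hb hab
      rw [mem_product]
      exact ⟨mem_filter.2 ⟨ha, hab ▸ inf_le_left⟩, mem_filter.2 ⟨hb, hab ▸ inf_le_right⟩⟩
    have h2 : #(B.filter fun e => e.1 ⊓ e.2 = z) ≤ r ^ 2 * #P := by
      refine card_le_mul_card_image_of_maps_to (f := fun e : X × X => e.1 ⊔ e.2) ?_ (r ^ 2) ?_
      · rintro ⟨a, b⟩ h
        rw [mem_filter, hB, mem_filter, mem_product] at h
        exact hPs _ (hAP h.1.1.1) _ (hAP h.1.1.2)
      · intro w _
        rcases ((B.filter fun e => e.1 ⊓ e.2 = z).filter fun e => e.1 ⊔ e.2 = w).eq_empty_or_nonempty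
          with h | ⟨⟨a, b⟩, h⟩
        · rw [h]; simp
        · rw [mem_filter, mem_filter, hB, mem_filter, mem_product] at h
          obtain ⟨⟨⟨⟨ha, hb⟩, hr⟩, hz1⟩, hw1⟩ := h
          simp only at ha hb hr hz1 hw1
          calc #((B.filter fun e => e.1 ⊓ e.2 = z).filter fun e => e.1 ⊔ e.2 = w)
              ≤ #(itv F (a, b) ×ˢ itv F (a, b)) := by
                refine card_le_card ?_
                rintro ⟨c, d⟩ h
                rw [mem_filter, mem_filter, hB, mem_filter, mem_product] at h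
                obtain ⟨⟨⟨⟨hc, hd⟩, -⟩, hz2⟩, hw2⟩ := h
                simp only at hc hd hz2 hw2
                rw [mem_product, itv, mem_filter, mem_filter, mem_image, mem_image]
                simp only
                rw [hz1, hw1, ← hz2, ← hw2]
                exact ⟨⟨⟨(c, y), ((hmA _).1 hc).1, rfl⟩, inf_le_left, le_sup_left⟩,
                  ⟨(d, y), ((hmA _).1 hd).1, rfl⟩, inf_le_right, le_sup_right⟩
            _ = #(itv F (a, b)) * #(itv F (a, b)) := card_product _ _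
            _ ≤ r * r := Nat.mul_le_mul hr hr
            _ = r ^ 2 := (sq r).symm
    have h1' : (#(B.filter fun e => e.1 ⊓ e.2 = z) : ℝ) ≤ (#(A.filter fun x => z ≤ x) : ℝ) ^ 2 := by
      exact_mod_cast h1
    have h2' : (#(B.filter fun e => e.1 ⊓ e.2 = z) : ℝ) ≤ (r : ℝ) ^ 2 * #P := by
      exact_mod_cast h2
    refine le_of_pow_le_pow_left₀ (n := 2) (by norm_num) (by positivity) ?_
    rw [mul_pow, mul_pow, Real.sq_sqrt (Nat.cast_nonneg _), sq]
    exact mul_le_mul h1' h2' (Nat.cast_nonneg _) (by positivity)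
  have hsum : ∑ z ∈ P, #(A.filter fun x => z ≤ x) ≤ r * #P := by
    calc ∑ z ∈ P, #(A.filter fun x => z ≤ x) = ∑ x ∈ A, #(P.filter fun z => z ≤ x) :=
          sum_card_bipartiteAbove_eq_sum_card_bipartiteBelow (r := fun z x => z ≤ x)
      _ ≤ ∑ x ∈ A, r := sum_le_sum fun x hx => ((hmA x).1 hx).2
      _ = r * #A := by rw [sum_const, smul_eq_mul, mul_comm]
      _ ≤ r * #P := Nat.mul_le_mul_left _ (card_le_card hAP)
  calc (#B : ℝ) = ∑ z ∈ P, (#(B.filter fun e => e.1 ⊓ e.2 = z) : ℝ) := by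
        rw [card_eq_sum_card_fiberwise (f := fun e : X × X => e.1 ⊓ e.2) (s := B) (t := P) ?_]
        · push_cast; rfl
        · rintro ⟨a, b⟩ h
          rw [mem_coe, hB, mem_filter, mem_product] at h
          exact hPi _ (hAP h.1.1) _ (hAP h.1.2)
    _ ≤ ∑ z ∈ P, (#(A.filter fun x => z ≤ x) : ℝ) * (r * √(#P : ℝ)) := sum_le_sum hz
    _ = ((∑ z ∈ P, #(A.filter fun x => z ≤ x) : ℕ) : ℝ) * (r * √(#P : ℝ)) := by
        rw [← sum_mul]; push_cast; rfl
    _ ≤ ((r * #P : ℕ) : ℝ) * (r * √(#P : ℝ)) := by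
        refine mul_le_mul_of_nonneg_right ?_ (by positivity)
        exact_mod_cast hsum
    _ = r ^ 2 * #P * √(#P : ℝ) := by push_cast; ring

/-- The pairs with large intervals have few common neighbours. -/
theorem good_sum_le (F : Finset (X × Y)) (hi : ∀ e ∈ F, ∀ e' ∈ F, e ⊓ e' ∈ F)
    (hs : ∀ e ∈ F, ∀ e' ∈ F, e ⊔ e' ∈ F) (r : ℕ)
    (hK : ∀ (S : Finset X) (T : Finset Y), r < #S → r < #T → ¬∀ x ∈ S, ∀ y ∈ T, (x, y) ∈ F) :
    ∑ y : Y, #((sml F r y ×ˢ sml F r y).filter fun e => r < #(itv F e)) ≤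
      r * Fintype.card X ^ 2 := by
  have h0 : ∀ y : Y, ((sml F r y ×ˢ sml F r y).filter fun e => r < #(itv F e)) =
      bipartiteAbove (fun (y : Y) (e : X × X) => e ∈ sml F r y ×ˢ sml F r y ∧ r < #(itv F e))
        (univ : Finset (X × X)) y := by
    intro y
    ext e
    simp [bipartiteAbove]
  calc ∑ y : Y, #((sml F r y ×ˢ sml F r y).filter fun e => r < #(itv F e))
      = ∑ e : X × X, #(bipartiteBelow (fun (y : Y) (e : X × X) =>
          e ∈ sml F r y ×ˢ sml F r y ∧ r < #(itv F e)) (univ : Finset Y) e) := by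
        rw [← sum_card_bipartiteAbove_eq_sum_card_bipartiteBelow]
        exact sum_congr rfl fun y _ => by rw [h0]
    _ ≤ ∑ e : X × X, r := by
        refine sum_le_sum fun e _ => ?_
        by_contra hcon
        push Not at hcon
        have hne : (bipartiteBelow (fun (y : Y) (e : X × X) =>
          e ∈ sml F r y ×ˢ sml F r y ∧ r < #(itv F e)) (univ : Finset Y) e).Nonempty :=
          card_pos.1 (by omega)
        obtain ⟨y₀, hy₀⟩ := hne
        rw [mem_bipartiteBelow] at hy₀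
        refine hK (itv F e) _ hy₀.2.2 hcon fun x hx y hy => ?_
        rw [mem_bipartiteBelow, mem_product] at hy
        rw [itv, mem_filter, mem_image] at hx
        obtain ⟨⟨⟨x', y'⟩, hx1, hx2⟩, hx3, hx4⟩ := hx
        simp only at hx2
        rw [hx2] at hx1
        have h1 : (e.1, y) ∈ F := (mem_nb _ _ _).1 (mem_filter.1 hy.2.1.1).1
        have h2 : (e.2, y) ∈ F := (mem_nb _ _ _).1 (mem_filter.1 hy.2.1.2).1
        have h3 := hi _ h1 _ h2
        have h4 := hs _ h1 _ h2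
        rw [Prod.mk_inf_mk, inf_idem] at h3
        rw [Prod.mk_sup_mk, sup_idem] at h4
        exact convex F hi hs _ _ _ y y' h3 h4 hx1 hx3 hx4
    _ = r * Fintype.card X ^ 2 := by
        rw [sum_const, card_univ, Fintype.card_prod, smul_eq_mul]; ring

theorem one_le (F : Finset (X × Y)) (hi : ∀ e ∈ F, ∀ e' ∈ F, e ⊓ e' ∈ F)
    (hs : ∀ e ∈ F, ∀ e' ∈ F, e ⊔ e' ∈ F) (r : ℕ) (y : Y) :
    (#(sml F r y) : ℝ) ≤ #(nb F y) / 4 + 256 * r ^ 4 +
      √(2 * #((sml F r y ×ˢ sml F r y).filter fun e => r < #(itv F e))) := by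
  set a := #(sml F r y) with ha
  set n := #(nb F y) with hn
  set g := #((sml F r y ×ˢ sml F r y).filter fun e => r < #(itv F e)) with hg
  have hb := bad_le F hi hs r y
  rw [← hn] at hb
  set b := #((sml F r y ×ˢ sml F r y).filter fun e => #(itv F e) ≤ r) with hb'
  by_cases h1 : (a : ℝ) ≤ n / 4
  · have : 0 ≤ √(2 * (g : ℝ)) := Real.sqrt_nonneg _
    have : (0 : ℝ) ≤ 256 * r ^ 4 := by positivity
    linarith
  by_cases h2 : (a : ℝ) ≤ 256 * r ^ 4
  · have : 0 ≤ √(2 * (g : ℝ)) := Real.sqrt_nonneg _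
    have : (0 : ℝ) ≤ (n : ℝ) / 4 := by positivity
    linarith
  push Not at h1 h2
  have hsum : (a : ℝ) ^ 2 ≤ b + g := by
    have : a ^ 2 = b + g := by
      rw [ha, hb', hg, sq, ← card_product, ← card_filter_add_card_filter_not (s := sml F r y ×ˢ sml F r y)
        (fun e => #(itv F e) ≤ r)]
      congr 2
      ext e
      simp [not_le]
    exact_mod_cast this.le
  have h3 : (n : ℝ) ≤ 4 * a := by linarith
  have hsa : 16 * (r : ℝ) ^ 2 ≤ √(a : ℝ) := by
    refine Real.le_sqrt_of_sq_le ?_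
    nlinarith
  have h4 : (b : ℝ) ≤ a ^ 2 / 2 := by
    have h5 : √(n : ℝ) ≤ 2 * √(a : ℝ) := by
      have : √(n : ℝ) ≤ √(4 * (a : ℝ)) := Real.sqrt_le_sqrt h3
      rwa [Real.sqrt_mul (by norm_num), show (4 : ℝ) = 2 ^ 2 by norm_num,
        Real.sqrt_sq (by norm_num)] at this
    have hsq : √(a : ℝ) * √(a : ℝ) = a := Real.mul_self_sqrt (Nat.cast_nonneg _)
    calc (b : ℝ) ≤ r ^ 2 * n * √(n : ℝ) := hb
      _ ≤ r ^ 2 * (4 * a) * (2 * √(a : ℝ)) := by gcongr
      _ = (16 * (r : ℝ) ^ 2) * (a * √(a : ℝ)) / 2 := by ring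
      _ ≤ √(a : ℝ) * (a * √(a : ℝ)) / 2 := by gcongr
      _ = (√(a : ℝ) * √(a : ℝ)) * a / 2 := by ring
      _ = a ^ 2 / 2 := by rw [hsq]; ring
  have h6 : (a : ℝ) ≤ √(2 * (g : ℝ)) := Real.le_sqrt_of_sq_le (by linarith)
  have : (0 : ℝ) ≤ 256 * r ^ 4 := by positivity
  have : (0 : ℝ) ≤ (n : ℝ) / 4 := by positivity
  linarith

theorem half_bound (F : Finset (X × Y)) (hi : ∀ e ∈ F, ∀ e' ∈ F, e ⊓ e' ∈ F)
    (hs : ∀ e ∈ F, ∀ e' ∈ F, e ⊔ e' ∈ F) (r : ℕ)
    (hK : ∀ (S : Finset X) (T : Finset Y), r < #S → r < #T → ¬∀ x ∈ S, ∀ y ∈ T, (x, y) ∈ F) :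
    (#(F.filter fun e => #((nb F e.2).filter fun z => z ≤ e.1) ≤ r) : ℝ) ≤
      #F / 4 + 256 * r ^ 4 * Fintype.card Y + Fintype.card X * √(2 * r * Fintype.card Y) := by
  have hfib : ∀ H : Finset (X × Y), #H = ∑ y : Y, #(univ.filter fun x => (x, y) ∈ H) := by
    intro H
    rw [card_eq_sum_card_fiberwise (f := Prod.snd) (s := H) (t := univ) fun _ _ => by simp]
    refine sum_congr rfl fun y _ => ?_
    refine card_bij' (fun e _ => e.1) (fun x _ => (x, y)) ?_ ?_ ?_ ?_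
    · rintro ⟨a, b⟩ he
      simp only [mem_filter, mem_univ, true_and] at he ⊢
      rw [← he.2]; exact he.1
    · intro x hx
      simp only [mem_filter, mem_univ, true_and] at hx ⊢
      exact ⟨hx, trivial⟩
    · rintro ⟨a, b⟩ he
      simp only [mem_filter] at he
      rw [← he.2]
    · intro x hx
      rfl
  have h1 : #(F.filter fun e => #((nb F e.2).filter fun z => z ≤ e.1) ≤ r) =
      ∑ y : Y, #(sml F r y) := by
    rw [hfib]
    refine sum_congr rfl fun y _ => ?_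
    congr 1
    ext x
    simp only [mem_filter, mem_univ, true_and, sml, mem_nb]
  have h2 : #F = ∑ y : Y, #(nb F y) := hfib F
  rw [h1]
  set g : Y → ℕ := fun y => #((sml F r y ×ˢ sml F r y).filter fun e => r < #(itv F e)) with hg
  have hgs : ∑ y : Y, (g y : ℝ) ≤ r * (Fintype.card X : ℝ) ^ 2 := by
    have := good_sum_le F hi hs r hK
    exact_mod_cast this
  have h3 : ∑ y : Y, √(2 * (g y : ℝ)) ≤ Fintype.card X * √(2 * r * Fintype.card Y) := by
    have h4 : (∑ y : Y, √(2 * (g y : ℝ))) ^ 2 ≤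
        (Fintype.card X * √(2 * r * Fintype.card Y)) ^ 2 := by
      calc (∑ y : Y, √(2 * (g y : ℝ))) ^ 2 ≤
          (#(univ : Finset Y) : ℝ) * ∑ y : Y, (√(2 * (g y : ℝ))) ^ 2 := sq_sum_le_card_mul_sum_sq
        _ = Fintype.card Y * ∑ y : Y, 2 * (g y : ℝ) := by
            rw [card_univ]
            congr 1
            exact sum_congr rfl fun y _ => Real.sq_sqrt (by positivity)
        _ = 2 * Fintype.card Y * ∑ y : Y, (g y : ℝ) := by rw [← mul_sum]; ring
        _ ≤ 2 * Fintype.card Y * (r * (Fintype.card X : ℝ) ^ 2) :=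
            mul_le_mul_of_nonneg_left hgs (by positivity)
        _ = _ := by
            rw [mul_pow, Real.sq_sqrt (by positivity)]; ring
    exact le_of_pow_le_pow_left₀ (by norm_num) (by positivity) h4
  calc ((∑ y : Y, #(sml F r y) : ℕ) : ℝ) = ∑ y : Y, (#(sml F r y) : ℝ) := by push_cast; rfl
    _ ≤ ∑ y : Y, ((#(nb F y) : ℝ) / 4 + 256 * r ^ 4 + √(2 * (g y : ℝ))) :=
        sum_le_sum fun y _ => one_le F hi hs r y
    _ = #F / 4 + 256 * r ^ 4 * Fintype.card Y + ∑ y : Y, √(2 * (g y : ℝ)) := by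
        rw [sum_add_distrib, sum_add_distrib, sum_const, card_univ, nsmul_eq_mul, h2, ← sum_div]
        push_cast
        ring
    _ ≤ _ := by linarith

end Half

/-- The bound for relations between arbitrary lattices. -/
theorem three_halves {X Y : Type*} [Fintype X] [Fintype Y] [Lattice X] [Lattice Y]
    (E : Set (X × Y)) (hE : ∀ e ∈ E, ∀ e' ∈ E, e ⊓ e' ∈ E) (hE2 : ∀ e ∈ E, ∀ e' ∈ E, e ⊔ e' ∈ E)
    (s t : ℕ) (hs : 1 ≤ s) (hst : s ≤ t)
    (hfree : (completeBipartiteGraph (Fin s) (Fin t)).Free (relGraph E)) :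
    (E.ncard : ℝ) ≤
      516 * ((t : ℝ) - 1) ^ 4 * ((Fintype.card X + Fintype.card Y : ℕ) : ℝ) ^ (3 / 2 : ℝ) := by
  classical
  obtain ⟨F, rfl⟩ := (Set.toFinite E).exists_finset_coe
  rw [Set.ncard_coe_finset]
  simp only [mem_coe] at hE hE2
  obtain ⟨r, rfl⟩ : ∃ r, t = r + 1 := ⟨t - 1, by omega⟩
  set F' : Finset (Y × X) := F.image Prod.swap with hF'
  have hmem' : ∀ x y, (y, x) ∈ F' ↔ (x, y) ∈ F := by
    intro x y
    rw [hF', mem_image]
    constructor
    · rintro ⟨⟨a, b⟩, hab, h⟩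
      simp only [Prod.swap_prod_mk, Prod.mk.injEq] at h
      rw [← h.1, ← h.2]; exact hab
    · exact fun h => ⟨(x, y), h, rfl⟩
  have hE' : ∀ e ∈ F', ∀ e' ∈ F', e ⊓ e' ∈ F' := by
    rintro ⟨a, b⟩ h ⟨a', b'⟩ h'
    rw [hmem'] at h h'
    rw [Prod.mk_inf_mk, hmem']
    exact hE _ h _ h'
  have hE2' : ∀ e ∈ F', ∀ e' ∈ F', e ⊔ e' ∈ F' := by
    rintro ⟨a, b⟩ h ⟨a', b'⟩ h'
    rw [hmem'] at h h'
    rw [Prod.mk_sup_mk, hmem']
    exact hE2 _ h _ h'
  have hK : ∀ (S : Finset X) (T : Finset Y), r < #S → r < #T → ¬∀ x ∈ S, ∀ y ∈ T, (x, y) ∈ F :=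
    fun S T hS hT h => not_free_left (s := s) (t := r + 1) S T (by omega) (by omega)
      (fun x hx y hy => mem_coe.2 (h x hx y hy)) hfree
  have hK' : ∀ (S : Finset Y) (T : Finset X), r < #S → r < #T → ¬∀ y ∈ S, ∀ x ∈ T, (y, x) ∈ F' :=
    fun S T hS hT h => hK T S hT hS fun x hx y hy => (hmem' x y).1 (h y hy x hx)
  have h1 := half_bound F hE hE2 r hK
  have h2 := half_bound F' hE' hE2' r hK'
  have hc : #F' = #F := card_image_of_injective _ Prod.swap_injective
  rw [hc] at h2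
  have hcov : #F ≤ #(F.filter fun e => #((nb F e.2).filter fun z => z ≤ e.1) ≤ r) +
      #(F'.filter fun e => #((nb F' e.2).filter fun z => z ≤ e.1) ≤ r) := by
    have h3 : F ⊆ (F.filter fun e => #((nb F e.2).filter fun z => z ≤ e.1) ≤ r) ∪
        ((F'.filter fun e => #((nb F' e.2).filter fun z => z ≤ e.1) ≤ r).image Prod.swap) := by
      rintro ⟨x, y⟩ he
      rw [mem_union]
      by_cases h4 : #((nb F y).filter fun z => z ≤ x) ≤ r
      · exact Or.inl (mem_filter.2 ⟨he, h4⟩)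
      · refine Or.inr (mem_image.2 ⟨(y, x), mem_filter.2 ⟨(hmem' x y).2 he, ?_⟩, rfl⟩)
        by_contra h5
        simp only [not_le] at h4 h5
        refine hK _ _ h4 h5 fun x' hx' y' hy' => ?_
        rw [mem_filter, mem_nb] at hx' hy'
        rw [hmem'] at hy'
        have := hE _ hx'.1 _ hy'.1
        rwa [Prod.mk_inf_mk, inf_eq_left.2 hx'.2, inf_eq_right.2 hy'.2] at this
    exact (card_le_card h3).trans ((card_union_le _ _).trans
      (Nat.add_le_add_left card_image_le _))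
  have hcov' : (#F : ℝ) ≤ #(F.filter fun e => #((nb F e.2).filter fun z => z ≤ e.1) ≤ r) +
      #(F'.filter fun e => #((nb F' e.2).filter fun z => z ≤ e.1) ≤ r) := by exact_mod_cast hcov
  set x : ℝ := (Fintype.card X : ℝ) with hx
  set y : ℝ := (Fintype.card Y : ℝ) with hy
  have hx0 : 0 ≤ x := Nat.cast_nonneg _
  have hy0 : 0 ≤ y := Nat.cast_nonneg _
  have hN : ((Fintype.card X + Fintype.card Y : ℕ) : ℝ) = x + y := by push_cast; rfl
  rw [hN]
  have h5 : (#F : ℝ) ≤ 2 * (256 * r ^ 4 * (x + y) + (x * √(2 * r * y) + y * √(2 * r * x))) := by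
    linarith
  have hp : (x + y) ^ (3 / 2 : ℝ) = (x + y) * √(x + y) := by
    rcases (add_nonneg hx0 hy0).eq_or_lt with h | h
    · rw [← h]; norm_num
    · rw [show (3 / 2 : ℝ) = 1 + 1 / 2 by norm_num, Real.rpow_add h, Real.rpow_one,
        ← Real.sqrt_eq_rpow]
  have hr0 : (0 : ℝ) ≤ r := Nat.cast_nonneg _
  have h6 : √(2 * r * (x + y)) ≤ 2 * r * √(x + y) := by
    rw [Real.sqrt_mul (by positivity)]
    refine mul_le_mul_of_nonneg_right ?_ (Real.sqrt_nonneg _)
    refine Real.sqrt_le_iff.2 ⟨by positivity, ?_⟩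
    rcases Nat.eq_zero_or_pos r with h | h
    · rw [h]; norm_num
    · have : (1 : ℝ) ≤ r := by exact_mod_cast h
      nlinarith
  have h7 : x * √(2 * r * y) + y * √(2 * r * x) ≤ (x + y) * (2 * r * √(x + y)) := by
    have h8 : √(2 * r * y) ≤ √(2 * r * (x + y)) := Real.sqrt_le_sqrt (by gcongr; linarith)
    have h9 : √(2 * r * x) ≤ √(2 * r * (x + y)) := Real.sqrt_le_sqrt (by gcongr; linarith)
    calc x * √(2 * r * y) + y * √(2 * r * x)
        ≤ x * √(2 * r * (x + y)) + y * √(2 * r * (x + y)) := by gcongr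
      _ = (x + y) * √(2 * r * (x + y)) := by ring
      _ ≤ _ := mul_le_mul_of_nonneg_left h6 (by positivity)
  have h10 : x + y ≤ (x + y) * √(x + y) := by
    rw [← hN]
    rcases Nat.eq_zero_or_pos (Fintype.card X + Fintype.card Y) with h | h
    · rw [h]; norm_num
    · have h11 : (1 : ℝ) ≤ ((Fintype.card X + Fintype.card Y : ℕ) : ℝ) := by exact_mod_cast h
      have h12 : (1 : ℝ) ≤ √((Fintype.card X + Fintype.card Y : ℕ) : ℝ) := Real.one_le_sqrt.2 h11
      nlinarith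
  have h13 : (r : ℝ) ≤ r ^ 4 := by
    rcases Nat.eq_zero_or_pos r with h | h
    · rw [h]; norm_num
    · have : (1 : ℝ) ≤ r := by exact_mod_cast h
      exact le_self_pow₀ this (by norm_num)
  have h14 : ((r + 1 : ℕ) : ℝ) - 1 = r := by push_cast; ring
  rw [h14, hp]
  have hM : 0 ≤ (x + y) * √(x + y) := by positivity
  calc (#F : ℝ) ≤ 2 * (256 * r ^ 4 * (x + y) + (x + y) * (2 * r * √(x + y))) := by linarith
    _ ≤ 2 * (256 * r ^ 4 * ((x + y) * √(x + y)) + 2 * r ^ 4 * ((x + y) * √(x + y))) := by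
        have h15 : 256 * (r : ℝ) ^ 4 * (x + y) ≤ 256 * r ^ 4 * ((x + y) * √(x + y)) :=
          mul_le_mul_of_nonneg_left h10 (by positivity)
        have h16 : (x + y) * (2 * r * √(x + y)) ≤ 2 * r ^ 4 * ((x + y) * √(x + y)) := by
          calc (x + y) * (2 * r * √(x + y)) = 2 * r * ((x + y) * √(x + y)) := by ring
            _ ≤ 2 * r ^ 4 * ((x + y) * √(x + y)) := by gcongr
        linarith
    _ = _ := by ring

end Pool.Agent.Q174.LR
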